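import Pool.Agent.X886.CFN.Cnt

/-!
# Counting the fractions with an atypical initial or final segment
-/

set_option autoImplicit false

open Filter Set MeasureTheory
open scoped Topology ENNReal

namespace Pool.Agent.X886.CFN

open Pool.Agent.R357.CF Pool.Agent.W811.Stu Pool.Agent.W174.Stu

theorem cntTyp (P : ℕ) (hP : 0 < P) (B : Finset ℕ) (W : ℕ → List ℕ)
    (hW : ∀ A ∈ B, Good (W A) ∧ phi (W A) 0 = (A : ℝ) / P) (S : Finset (List ℕ)) (ε : ℝ) (C : ℕ)
    (hbad : ∀ A ∈ B, ∃ v r, W A = v ++ r ∧ 2 * Q v ^ 2 ≤ P ∧ ¬ Typ S ε C v) (η : ℝ) (hη : 0 ≤ η)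
    (hvol : volume (UU S ε C) ≤ ENNReal.ofReal η) : (B.card : ℝ) ≤ 2 * P * η := by
  apply count_le' P hP B (UU S ε C) η hη hvol
  intro A hA
  obtain ⟨v, r, h1, h2, h3⟩ := hbad A hA
  obtain ⟨h4, h5⟩ := hW A hA
  rw [h1] at h4 h5
  apply seg_of_word P hP h4 h2 A h5
  intro y hi hy hpre
  refine ⟨hi, hy, v.length, ?_⟩
  rw [hpre]
  exact h3

theorem vol_image {u : List ℕ} (hu : Good u) (E : Set ℝ) (hE : E ⊆ Icc 0 1) :
    volume (phi u '' E) ≤ ENNReal.ofReal (1 / (Q u : ℝ) ^ 2) * volume E := by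
  have hQ : (1 : ℝ) ≤ Q u := by exact_mod_cast Q_pos hu
  have hlip : LipschitzOnWith (Real.toNNReal (1 / (Q u : ℝ) ^ 2)) (phi u) E := by
    apply LipschitzOnWith.of_dist_le_mul
    intro z hz z' hz'
    rw [Real.coe_toNNReal _ (by positivity), Real.dist_eq, Real.dist_eq]
    have := (phi_abs hu (hE hz) (hE hz')).2
    rw [div_eq_inv_mul] at this
    rw [one_div]
    exact this
  have hH := hlip.hausdorffMeasure_image_le (d := 1) zero_le_one
  rw [hausdorffMeasure_real, ENNReal.rpow_one] at hH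
  exact hH

theorem cntTyp1 (P : ℕ) (hP : 0 < P) {u : List ℕ} (hu : Good u) (B : Finset ℕ) (V : ℕ → List ℕ)
    (hV : ∀ A ∈ B, Good (V A) ∧ phi (u ++ V A) 0 = (A : ℝ) / P) (S : Finset (List ℕ)) (ε : ℝ)
    (C : ℕ) (hbad : ∀ A ∈ B, ∃ v r, V A = v ++ r ∧ 2 * Q (u ++ v) ^ 2 ≤ P ∧ ¬ Typ S ε C v)
    (η : ℝ) (hη : 0 ≤ η) (hvol : volume (UU S ε C) ≤ ENNReal.ofReal η) :
    (B.card : ℝ) ≤ 2 * P * (1 / (Q u : ℝ) ^ 2 * η) := by
  apply count_le' P hP B (phi u '' UU S ε C) _ (by positivity)
  · refine (vol_image hu _ fun y hy => Ioo_subset_Icc_self hy.2.1).trans ?_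
    rw [ENNReal.ofReal_mul (by positivity)]
    gcongr
  intro A hA
  obtain ⟨v, r, h1, h2, h3⟩ := hbad A hA
  obtain ⟨h4, h5⟩ := hV A hA
  rw [h1, ← List.append_assoc] at h5
  rw [h1] at h4
  have h6 : Good (u ++ v ++ r) := by
    rw [List.append_assoc]
    exact hu.append h4
  apply seg_of_word P hP h6 h2 A h5
  intro y hi hy hpre
  obtain ⟨-, h8⟩ := dig_props hi hy
  have h9 := h8 u.length
  have h10 : pre (dig y) u.length = u := by
    have : pre (dig y) u.length = (pre (dig y) (u ++ v).length).take u.length := by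
      unfold pre
      rw [← List.map_take, List.take_range, List.length_append]
      congr 2
      omega
    rw [this, hpre, List.take_left]
  rw [h10] at h9
  obtain ⟨i1, i2⟩ := iter_mem hi hy u.length
  refine ⟨gauss^[u.length] y, ⟨i1, i2, v.length, ?_⟩, h9.symm⟩
  have h11 : pre (dig (gauss^[u.length] y)) v.length = v := by
    have h12 := pre_dig_phi hu i2 v.length
    rw [← h9, ← List.length_append, hpre] at h12
    exact (List.append_cancel_left h12).symm
  rw [h11]
  exact h3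

theorem Q_pre_mono (a : ℕ → ℕ) (ha : ∀ n, 1 ≤ a n) {k m : ℕ} (h : k ≤ m) :
    Q (pre a k) ≤ Q (pre a m) := by
  induction m, h using Nat.le_induction with
  | base => exact le_rfl
  | succ m _ ih =>
    rw [pre_succ]
    exact ih.trans (Q_le_append (ha m))

theorem Q_take_mono {w : List ℕ} (hw : Good w) {i j : ℕ} (h : i ≤ j) :
    Q (w.take i) ≤ Q (w.take j) := by
  have h1 : w.take j = w.take i ++ (w.take j).drop i := by
    have := (List.take_append_drop i (w.take j)).symm
    rwa [List.take_take, min_eq_left h] at this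
  rw [h1]
  apply Q_le_of_append_left
  rw [← h1]
  exact fun d hd => hw d (List.mem_of_mem_take hd)

theorem cntVV (P : ℕ) (hP : 0 < P) (B : Finset ℕ) (W : ℕ → List ℕ)
    (hW : ∀ A ∈ B, Good (W A) ∧ phi (W A) 0 = (A : ℝ) / P) (T m : ℕ)
    (hPR : 2 * (2 ^ (T * m)) ^ 2 ≤ P)
    (hbad : ∀ A ∈ B, ¬ (m ≤ (W A).length ∧ Q ((W A).take m) ≤ 2 ^ (T * m))) (η : ℝ) (hη : 0 ≤ η)
    (hvol : volume (VV T m) ≤ ENNReal.ofReal η) : (B.card : ℝ) ≤ 2 * P * η := by
  classical
  apply count_le' P hP B (VV T m) η hη hvol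
  intro A hA
  obtain ⟨hw, hphi⟩ := hW A hA
  set w := W A with hwdef
  set R : ℕ := 2 ^ (T * m) with hR
  have hR1 : 1 ≤ R := Nat.one_le_two_pow
  -- the last index with a small denominator
  have hex : ∃ j, ¬ (j + 1 ≤ m ∧ j + 1 ≤ w.length ∧ Q (w.take (j + 1)) ≤ R) :=
    ⟨m, fun h => by omega⟩
  set j := Nat.find hex with hj
  have hj1 := Nat.find_spec hex
  rw [← hj] at hj1
  have hj2 : ∀ i < j, i + 1 ≤ m ∧ i + 1 ≤ w.length ∧ Q (w.take (i + 1)) ≤ R := fun i hi => by
    have := Nat.find_min hex hi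
    rwa [not_not] at this
  have hjm : j ≤ m := by
    rcases Nat.eq_zero_or_pos j with h | h
    · omega
    · have := (hj2 (j - 1) (by omega)).1
      omega
  have hjl : j ≤ w.length := by
    rcases Nat.eq_zero_or_pos j with h | h
    · omega
    · have := (hj2 (j - 1) (by omega)).2.1
      omega
  have hjQ : Q (w.take j) ≤ R := by
    rcases Nat.eq_zero_or_pos j with h | h
    · rw [h]
      simpa [Q, cq] using hR1
    · have := (hj2 (j - 1) (by omega)).2.2
      rwa [Nat.sub_add_cancel h] at this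
  have hjlt : j < m := by
    rcases hjm.lt_or_eq with h | h
    · exact h
    · exfalso
      apply hbad A hA
      rw [← hwdef, ← h]
      exact ⟨hjl, by rw [h]; rw [h] at hjQ; exact hjQ⟩
  set v := w.take j with hv
  have hwv : w = v ++ w.drop j := (List.take_append_drop j w).symm
  have hvg : Good v := by
    rw [hwv] at hw
    exact Good.left hw
  have hrg : Good (w.drop j) := by
    rw [hwv] at hw
    exact Good.right hw
  have hvl : v.length = j := by
    rw [hv, List.length_take]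
    omega
  have hQv := Q_pos hvg
  -- the critical digit
  have hexd : ∃ d, 1 ≤ d ∧ R < d * Q v + Q' v := ⟨R + 1, by omega, by nlinarith⟩
  set d0 := Nat.find hexd with hd0
  obtain ⟨hd1, hd2⟩ := Nat.find_spec hexd
  rw [← hd0] at hd1 hd2
  have hd3 : d0 * Q v + Q' v ≤ 2 * R := by
    rcases Nat.lt_or_ge d0 2 with h | h
    · have : d0 = 1 := by omega
      rw [this, one_mul]
      have := Q'_le hvg
      omega
    · have h1 := Nat.find_min hexd (m := d0 - 1) (by omega)
      have h2 : (d0 - 1) * Q v + Q' v ≤ R := by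
        by_contra h3
        exact h1 ⟨by omega, by omega⟩
      have h4 : d0 * Q v = (d0 - 1) * Q v + Q v := by
        nth_rewrite 1 [show d0 = (d0 - 1) + 1 by omega]
        ring
      omega
  have hd0' : (1 : ℝ) ≤ d0 := by exact_mod_cast hd1
  set t : ℝ := 1 / (d0 : ℝ) with ht
  have ht0 : 0 < t := by positivity
  have ht1 : t ≤ 1 := by
    rw [ht, div_le_one (by positivity)]
    exact hd0'
  -- the position of A / P
  set z := phi (w.drop j) 0 with hz
  have hzA : phi v z = (A : ℝ) / P := by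
    rw [hz, ← phi_append, ← hwv]
    exact hphi
  have hz0 : 0 ≤ z := (phi_mem_Icc hrg ⟨le_rfl, zero_le_one⟩).1
  have hzt : z ≤ t := by
    rcases hjl.lt_or_eq with h | h
    · have hne : w.drop j ≠ [] := by
        intro h'
        have := congrArg List.length h'
        rw [List.length_drop, List.length_nil] at this
        omega
      obtain ⟨d, r, hdr⟩ := List.exists_cons_of_ne_nil hne
      have hQ1 : R < Q (w.take (j + 1)) := by
        by_contra h'
        exact hj1 ⟨by omega, by omega, by omega⟩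
      have htake : w.take (j + 1) = v ++ [d] := by
        rw [List.take_succ_eq_append_getElem h]
        congr 2
        have h5 : (w.drop j)[0]? = some d := by rw [hdr]; rfl
        rw [List.getElem?_drop, add_zero, List.getElem?_eq_getElem h] at h5
        exact Option.some_injective _ h5
      rw [htake, Q_append] at hQ1
      rw [hdr] at hrg
      have hdd : d0 ≤ d := by
        apply Nat.find_min' hexd
        exact ⟨hrg.cons.1, hQ1⟩
      have h6 : z = 1 / (d + phi r 0) := by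
        rw [hz, hdr]
        rfl
      have h7 : 0 ≤ phi r 0 := (phi_mem_Icc hrg.cons.2 ⟨le_rfl, zero_le_one⟩).1
      rw [h6, ht]
      apply one_div_le_one_div_of_le (by positivity)
      have : (d0 : ℝ) ≤ d := by exact_mod_cast hdd
      linarith
    · have : w.drop j = [] := by
        rw [h]
        exact List.drop_length
      rw [hz, this]
      exact ht0.le
  obtain ⟨h1, h2⟩ := mem_seg hvg hz0 hzt
  rw [hzA] at h1 h2
  refine ⟨_, _, h1, h2, ?_, fun y hy hi => ?_⟩
  · rw [seg_len hvg ht0]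
    have e : t / ((Q v : ℝ) * (Q v + Q' v * t)) = 1 / ((Q v : ℝ) * (d0 * Q v + Q' v)) := by
      have hQ0 : (0 : ℝ) < Q v := by exact_mod_cast hQv
      have hQ' : (0 : ℝ) ≤ Q' v := by positivity
      have hd00 : (0 : ℝ) < d0 := by linarith
      rw [ht, div_eq_div_iff (by positivity) (by positivity)]
      field_simp
    rw [e]
    have hn : Q v * (d0 * Q v + Q' v) ≤ P := by
      calc Q v * (d0 * Q v + Q' v) ≤ R * (2 * R) := Nat.mul_le_mul hjQ hd3
        _ = 2 * R ^ 2 := by ring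
        _ ≤ P := hPR
    apply one_div_le_one_div_of_le
    · have hQ0 : (0 : ℝ) < Q v := by exact_mod_cast hQv
      positivity
    · exact_mod_cast hn
  · rw [← image_phi hvg ht0 ht1] at hy
    obtain ⟨z', hz', rfl⟩ := hy
    have hz'1 : z' ∈ Ioo (0 : ℝ) 1 := ⟨hz'.1, hz'.2.trans_le ht1⟩
    have hmem := phi_mem hvg hz'1
    refine ⟨hi, hmem, ?_⟩
    have h3 := pre_dig_phi hvg hz'1 1
    rw [hvl] at h3
    have h4 : pre (dig z') 1 = [dig z' 0] := by simp [pre]
    rw [h4] at h3
    have h5 : d0 ≤ dig z' 0 := by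
      unfold dig
      rw [Function.iterate_zero, id]
      apply Nat.le_floor
      rw [le_inv_comm₀ (by positivity) hz'.1]
      have := hz'.2
      rw [ht, one_div] at this
      exact this.le
    obtain ⟨h6, -⟩ := dig_props hi hmem
    have h7 := Q_pre_mono (dig (phi v z')) h6 (show j + 1 ≤ m by omega)
    rw [h3, Q_append] at h7
    show R < _
    calc R < d0 * Q v + Q' v := hd2
      _ ≤ dig z' 0 * Q v + Q' v := by gcongr
      _ ≤ _ := h7

theorem dvd_of_phi {w : List ℕ} (hw : Good w) {P A : ℕ} (hP : 0 < P)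
    (h : phi w 0 = (A : ℝ) / P) : Q w ∣ P ∧ Pw w * P = A * Q w := by
  have hQ := Q_pos hw
  have hQ' : (0 : ℝ) < Q w := by exact_mod_cast hQ
  have hP' : (0 : ℝ) < P := by exact_mod_cast hP
  rw [phi_zero hw, div_eq_div_iff hQ'.ne' hP'.ne'] at h
  have h1 : Pw w * P = A * Q w := by exact_mod_cast h
  refine ⟨?_, h1⟩
  exact (coprime_PQ w).symm.dvd_of_dvd_mul_left (h1 ▸ Dvd.intro_left A rfl)

theorem cntRev (P : ℕ) (hP : 0 < P) (B : Finset ℕ) (W : ℕ → List ℕ)
    (hW : ∀ A ∈ B, Good (W A) ∧ phi (W A) 0 = (A : ℝ) / P) (hlt : ∀ A ∈ B, A < P)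
    (e : ℕ) (hpar : ∀ A ∈ B, (W A).length % 2 = e)
    (S : Finset (List ℕ)) (ε : ℝ) (C : ℕ)
    (hbad : ∀ A ∈ B, ∃ v r, (W A).reverse = v ++ r ∧ 2 * Q v ^ 2 ≤ P ∧ ¬ Typ S ε C v) (η : ℝ)
    (hη : 0 ≤ η) (hvol : volume (UU S ε C) ≤ ENNReal.ofReal η) : (B.card : ℝ) ≤ 2 * P * η := by
  classical
  set f : ℕ → ℕ := fun A => P / Q (W A) * Q' (W A) with hf
  have hP' : (0 : ℝ) < P := by exact_mod_cast hP
  have hfA : ∀ A ∈ B, (f A : ℝ) / P = (Q' (W A) : ℝ) / Q (W A) := by
    intro A hA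
    obtain ⟨h1, h2⟩ := hW A hA
    have hQ := Q_pos h1
    have hQ' : (0 : ℝ) < Q (W A) := by exact_mod_cast hQ
    obtain ⟨k, hk⟩ := (dvd_of_phi h1 hP h2).1
    have hk0 : 0 < k := Nat.pos_of_mul_pos_left (hk ▸ hP)
    have hk' : (0 : ℝ) < k := by exact_mod_cast hk0
    have h3 : P / Q (W A) = k := by
      rw [hk]
      exact Nat.mul_div_cancel_left k hQ
    rw [hf]
    simp only
    rw [h3, div_eq_div_iff hP'.ne' hQ'.ne', hk]
    push_cast
    ring
  have hinj : Set.InjOn f B := by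
    intro A hA A' hA' hff
    obtain ⟨h1, h2⟩ := hW A hA
    obtain ⟨h1', h2'⟩ := hW A' hA'
    have hQ := Q_pos h1
    have hQ' := Q_pos h1'
    have h3 := hfA A hA
    rw [hff, hfA A' hA', div_eq_div_iff (by positivity) (by positivity)] at h3
    have h4 : Q' (W A') * Q (W A) = Q' (W A) * Q (W A') := by exact_mod_cast h3
    have c1 := coprime_QQ' (W A)
    have c2 := coprime_QQ' (W A')
    have h5 : Q (W A) = Q (W A') := by
      apply Nat.dvd_antisymm
      · exact c1.dvd_of_dvd_mul_left (h4 ▸ Dvd.intro_left _ rfl)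
      · exact c2.dvd_of_dvd_mul_left (h4 ▸ Dvd.intro_left _ rfl)
    have h6 : Q' (W A) = Q' (W A') := by
      rw [h5] at h4
      exact (Nat.eq_of_mul_eq_mul_right hQ' h4).symm
    have d1 := detZ (W A)
    have d2 := detZ (W A')
    have hsgn : (-1 : ℤ) ^ (W A).length = (-1) ^ (W A').length := by
      have e1 := hpar A hA
      have e2 := hpar A' hA'
      rw [neg_one_pow_eq_pow_mod_two, neg_one_pow_eq_pow_mod_two (n := (W A').length), e1, e2]
    rw [hsgn, ← d2, h5, h6] at d1
    have h7 : (Q (W A') : ℤ) ∣ ((Pw (W A) : ℤ) - Pw (W A')) := by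
      have h8 : (Q (W A') : ℤ) ∣ ((Pw (W A) : ℤ) - Pw (W A')) * Q' (W A') :=
        ⟨(Pw' (W A) : ℤ) - Pw' (W A'), by linarith⟩
      exact IsCoprime.dvd_of_dvd_mul_right (Nat.isCoprime_iff_coprime.2 c2) h8
    obtain ⟨-, m1⟩ := dvd_of_phi h1 hP h2
    obtain ⟨-, m2⟩ := dvd_of_phi h1' hP h2'
    have lt1 : Pw (W A) < Q (W A) := by
      by_contra hge
      rw [not_lt] at hge
      have := hlt A hA
      nlinarith
    have lt2 : Pw (W A') < Q (W A') := by
      by_contra hge
      rw [not_lt] at hge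
      have := hlt A' hA'
      nlinarith
    rw [h5] at lt1
    have h9 : (Pw (W A) : ℤ) - Pw (W A') = 0 := by
      apply Int.eq_zero_of_abs_lt_dvd h7
      rw [abs_lt]
      constructor
      · have : (Pw (W A') : ℤ) < Q (W A') := by exact_mod_cast lt2
        have : (0 : ℤ) ≤ Pw (W A) := by positivity
        linarith
      · have : (Pw (W A) : ℤ) < Q (W A') := by exact_mod_cast lt1
        have : (0 : ℤ) ≤ Pw (W A') := by positivity
        linarith
    have h10 : Pw (W A) = Pw (W A') := by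
      have : (Pw (W A) : ℤ) = Pw (W A') := by linarith
      exact_mod_cast this
    rw [h10, m2, h5] at m1
    exact (Nat.eq_of_mul_eq_mul_right hQ' m1).symm
  rw [← Finset.card_image_of_injOn hinj]
  apply count_le' P hP (B.image f) (UU S ε C) η hη hvol
  intro A' hA'
  obtain ⟨A, hA, rfl⟩ := Finset.mem_image.1 hA'
  obtain ⟨h1, h2⟩ := hW A hA
  obtain ⟨v, r, h3, h4, h5⟩ := hbad A hA
  have h6 : Good (v ++ r) := h3 ▸ Good.reverse h1
  have h7 : phi (v ++ r) 0 = (f A : ℝ) / P := by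
    rw [hfA A hA, ← h3, phi_zero (Good.reverse h1), Pw_reverse, Q_reverse]
  apply seg_of_word P hP h6 h4 (f A) h7
  intro y hi hy hpre
  refine ⟨hi, hy, v.length, ?_⟩
  rw [hpre]
  exact h5

end Pool.Agent.X886.CFN
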