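import Pool.Agent.X886.CFN.Gs

/-!
# Counting fractions with a given denominator
-/

set_option autoImplicit false

open Filter Set MeasureTheory
open scoped Topology ENNReal

namespace Pool.Agent.X886.CFN

open Pool.Agent.R357.CF Pool.Agent.W811.Stu Pool.Agent.W174.Stu

/-- If each `A / P` with `A ∈ B` lies in a segment of length at least `1 / P` almost all of whose
points are in `U`, then there are at most `2 P |U|` such `A`. -/
theorem count_le (P : ℕ) (hP : 0 < P) (B : Finset ℕ) (U : Set ℝ)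
    (h : ∀ A ∈ B, ∃ α β : ℝ, α ≤ (A : ℝ) / P ∧ (A : ℝ) / P ≤ β ∧ 1 / (P : ℝ) ≤ β - α ∧
      ∀ y ∈ Ioo α β, Irrational y → y ∈ U) :
    (B.card : ℝ≥0∞) * ENNReal.ofReal (1 / (2 * P)) ≤ volume U := by
  have hP' : (0 : ℝ) < P := by exact_mod_cast hP
  have hK : ∀ A : ℕ, ∃ γ : ℝ, (A ∈ B → (((A : ℝ) - 1 / 2) / P ≤ γ ∧ γ + 1 / (2 * P) ≤ ((A : ℝ) + 1 / 2) / P ∧
      ∀ y ∈ Ioo γ (γ + 1 / (2 * P)), Irrational y → y ∈ U)) := by
    intro A
    by_cases hA : A ∈ B
    · obtain ⟨α, β, h1, h2, h3, h4⟩ := h A hA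
      have e1 : ((A : ℝ) + 1 / 2) / P = (A : ℝ) / P + 1 / (2 * P) := by field_simp
      have e2 : ((A : ℝ) - 1 / 2) / P = (A : ℝ) / P - 1 / (2 * P) := by field_simp
      have e3 : 1 / (P : ℝ) = 1 / (2 * P) + 1 / (2 * P) := by field_simp; norm_num
      have h0 : 0 < 1 / (2 * (P : ℝ)) := by positivity
      rcases le_or_gt ((A : ℝ) / P + 1 / (2 * P)) β with hb | hb
      · refine ⟨(A : ℝ) / P, fun _ => ⟨by rw [e2]; linarith, by rw [e1], fun y hy hi => ?_⟩⟩
        exact h4 y ⟨by linarith [hy.1], by linarith [hy.2]⟩ hi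
      · refine ⟨(A : ℝ) / P - 1 / (2 * P), fun _ => ⟨by rw [e2], by rw [e1]; linarith, fun y hy hi => ?_⟩⟩
        exact h4 y ⟨by linarith [hy.1], by linarith [hy.2]⟩ hi
    · exact ⟨0, fun h' => absurd h' hA⟩
  choose γ hγ using hK
  have hirr : (range ((↑) : ℚ → ℝ)).Countable := countable_range _
  have hUq : volume (U ∪ range ((↑) : ℚ → ℝ)) ≤ volume U := by
    refine (measure_union_le _ _).trans ?_
    rw [hirr.measure_zero volume, add_zero]
  refine le_trans ?_ hUq
  have hdisj : (B : Set ℕ).PairwiseDisjoint fun A => Ioo (γ A) (γ A + 1 / (2 * P)) := by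
    intro A hA A' hA' hne
    rw [Function.onFun, Set.disjoint_left]
    intro y hy hy'
    obtain ⟨a1, a2, -⟩ := hγ A hA
    obtain ⟨b1, b2, -⟩ := hγ A' hA'
    have c1 : ((A : ℝ) - 1 / 2) / P < y := lt_of_le_of_lt a1 hy.1
    have c2 : y < ((A : ℝ) + 1 / 2) / P := lt_of_lt_of_le hy.2 a2
    have c3 : ((A' : ℝ) - 1 / 2) / P < y := lt_of_le_of_lt b1 hy'.1
    have c4 : y < ((A' : ℝ) + 1 / 2) / P := lt_of_lt_of_le hy'.2 b2
    have d1 : (A : ℝ) - 1 / 2 < (A' : ℝ) + 1 / 2 := by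
      have := c1.trans c4
      rwa [div_lt_div_iff_of_pos_right hP'] at this
    have d2 : (A' : ℝ) - 1 / 2 < (A : ℝ) + 1 / 2 := by
      have := c3.trans c2
      rwa [div_lt_div_iff_of_pos_right hP'] at this
    have d3 : (A : ℝ) < A' + 1 := by linarith
    have d4 : (A' : ℝ) < A + 1 := by linarith
    have d3' : A < A' + 1 := by exact_mod_cast d3
    have d4' : A' < A + 1 := by exact_mod_cast d4
    exact hne (by omega)
  calc (B.card : ℝ≥0∞) * ENNReal.ofReal (1 / (2 * P))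
      = ∑ A ∈ B, volume (Ioo (γ A) (γ A + 1 / (2 * P))) := by
        rw [Finset.sum_congr rfl fun A _ => by rw [Real.volume_Ioo, add_sub_cancel_left]]
        rw [Finset.sum_const, nsmul_eq_mul]
    _ = volume (⋃ A ∈ B, Ioo (γ A) (γ A + 1 / (2 * P))) :=
        (measure_biUnion_finset hdisj fun _ _ => measurableSet_Ioo).symm
    _ ≤ _ := by
        apply measure_mono
        intro y hy
        rw [mem_iUnion₂] at hy
        obtain ⟨A, hA, hy⟩ := hy
        by_cases hi : Irrational y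
        · left
          exact (hγ A hA).2.2 y hy hi
        · right
          rw [Irrational, not_not] at hi
          exact hi

/-- real version -/
theorem count_le' (P : ℕ) (hP : 0 < P) (B : Finset ℕ) (U : Set ℝ) (η : ℝ) (hη : 0 ≤ η)
    (hU : volume U ≤ ENNReal.ofReal η)
    (h : ∀ A ∈ B, ∃ α β : ℝ, α ≤ (A : ℝ) / P ∧ (A : ℝ) / P ≤ β ∧ 1 / (P : ℝ) ≤ β - α ∧
      ∀ y ∈ Ioo α β, Irrational y → y ∈ U) : (B.card : ℝ) ≤ 2 * P * η := by
  have h1 := (count_le P hP B U h).trans hU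
  have hP' : (0 : ℝ) < P := by exact_mod_cast hP
  rw [← ENNReal.ofReal_natCast, ← ENNReal.ofReal_mul (by positivity),
    ENNReal.ofReal_le_ofReal_iff hη] at h1
  rw [mul_one_div, div_le_iff₀ (by positivity)] at h1
  linarith

/-- the length of a segment -/
theorem seg_len {w : List ℕ} (hw : Good w) {t : ℝ} (ht : 0 < t) :
    max (phi w 0) (phi w t) - min (phi w 0) (phi w t) = t / ((Q w : ℝ) * (Q w + Q' w * t)) := by
  rw [max_sub_min_eq_abs, phi_sub hw ht.le le_rfl, abs_div, abs_mul, abs_pow, abs_neg, abs_one,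
    one_pow, one_mul, sub_zero, abs_of_pos ht, mul_zero, add_zero]
  have hQ : (1 : ℝ) ≤ Q w := by exact_mod_cast Q_pos hw
  have hQ' : (0 : ℝ) ≤ Q' w := by positivity
  rw [abs_of_pos (by positivity)]
  ring

/-- the value at a point of the closed segment -/
theorem mem_seg {w : List ℕ} (hw : Good w) {t z : ℝ} (h0 : 0 ≤ z) (h1 : z ≤ t) :
    min (phi w 0) (phi w t) ≤ phi w z ∧ phi w z ≤ max (phi w 0) (phi w t) := by
  rcases Nat.even_or_odd w.length with he | ho
  · have a : phi w 0 ≤ phi w z := by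
      rcases h0.eq_or_lt with rfl | h
      · exact le_rfl
      · exact (phi_lt hw he le_rfl h).le
    have b : phi w z ≤ phi w t := by
      rcases h1.eq_or_lt with rfl | h
      · exact le_rfl
      · exact (phi_lt hw he h0 h).le
    exact ⟨(min_le_left _ _).trans a, b.trans (le_max_right _ _)⟩
  · have a : phi w z ≤ phi w 0 := by
      rcases h0.eq_or_lt with rfl | h
      · exact le_rfl
      · exact (phi_gt hw ho le_rfl h).le
    have b : phi w t ≤ phi w z := by
      rcases h1.eq_or_lt with rfl | h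
      · exact le_rfl
      · exact (phi_gt hw ho h0 h).le
    exact ⟨(min_le_right _ _).trans b, a.trans (le_max_left _ _)⟩

/-- a prefix of a word gives a segment -/
theorem seg_of_word (P : ℕ) (hP : 0 < P) {v r : List ℕ} (hw : Good (v ++ r))
    (hQ : 2 * Q v ^ 2 ≤ P) (A : ℕ) (hA : phi (v ++ r) 0 = (A : ℝ) / P) (U : Set ℝ)
    (hU : ∀ y, Irrational y → y ∈ Ioo (0 : ℝ) 1 → pre (dig y) v.length = v → y ∈ U) :
    ∃ α β : ℝ, α ≤ (A : ℝ) / P ∧ (A : ℝ) / P ≤ β ∧ 1 / (P : ℝ) ≤ β - α ∧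
      ∀ y ∈ Ioo α β, Irrational y → y ∈ U := by
  have hv : Good v := Good.left hw
  have hr : Good r := Good.right hw
  have hz := phi_mem_Icc hr (z := 0) ⟨le_rfl, zero_le_one⟩
  rw [phi_append] at hA
  obtain ⟨h1, h2⟩ := mem_seg hv hz.1 hz.2
  rw [hA] at h1 h2
  refine ⟨_, _, h1, h2, ?_, fun y hy hi => ?_⟩
  · rw [seg_len hv one_pos, mul_one]
    have hQ1 : (1 : ℝ) ≤ Q v := by exact_mod_cast Q_pos hv
    have hQ2 : (Q' v : ℝ) ≤ Q v := by exact_mod_cast Q'_le hv
    have hQ3 : (2 : ℝ) * (Q v : ℝ) ^ 2 ≤ P := by exact_mod_cast hQ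
    have hQ4 : (0 : ℝ) ≤ Q' v := by positivity
    apply one_div_le_one_div_of_le (by positivity)
    nlinarith
  · rw [← image_phi hv one_pos le_rfl] at hy
    obtain ⟨z, hz', rfl⟩ := hy
    apply hU _ hi (phi_mem hv hz')
    have := pre_dig_phi hv hz' 0
    simpa [pre] using this

end Pool.Agent.X886.CFN
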