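import Pool.Agent.X886.CFN.Stage

/-!
# A continued fraction with good frequencies and bad multiples
-/

set_option autoImplicit false

open Filter Set MeasureTheory
open scoped Topology

namespace Pool.Agent.X886.CFN

open Pool.Agent.R357.CF Pool.Agent.W811.Stu Pool.Agent.W174.Stu

open Classical in
/-- an exhaustion of the set of all patterns -/
noncomputable def pats (k : ℕ) : Finset (List ℕ) :=
  ((Finset.range k).biUnion fun i => (Encodable.decode i : Option (List ℕ)).toFinset).filter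
    fun s => Good s ∧ s ≠ []

theorem pats_pat (k : ℕ) : Pat (pats k) := by
  classical
  intro s hs
  unfold pats at hs
  rw [Finset.mem_filter] at hs
  exact hs.2

theorem mem_pats {s : List ℕ} (hg : Good s) (hs : s ≠ []) {k : ℕ} (hk : Encodable.encode s < k) :
    s ∈ pats k := by
  classical
  unfold pats
  rw [Finset.mem_filter, Finset.mem_biUnion]
  refine ⟨⟨Encodable.encode s, Finset.mem_range.2 hk, ?_⟩, hg, hs⟩
  rw [Encodable.encodek]
  simp

theorem eps_pos (k : ℕ) : (0 : ℝ) < 1 / ((k : ℝ) + 1) := by positivity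

/-- the constants -/
noncomputable def Cst (k : ℕ) : ℕ := (stage (pats k) (pats_pat k) (eps_pos k)).choose

theorem step (k : ℕ) {u : List ℕ} (hu : Good u) (Pn : ℕ → ℕ) (h1 : 1 ≤ Pn 0)
    (h2 : ∀ n, 2 * Pn n ≤ Pn (n + 1)) (L0 : ℕ) : ∃ (v : List ℕ) (D n : ℕ), Good v ∧ 1 ≤ D ∧
      L0 ≤ v.length ∧ k ≤ n ∧ Q (u ++ v) ∣ Pn n ∧
      (∀ v' r, v = v' ++ r → Typ (pats k) (1 / ((k : ℝ) + 1)) (Cst k) v') ∧
      ∀ z ∈ Icc (0 : ℝ) 1, |phi (u ++ v ++ [D]) z - phi (u ++ v) 0| * Pn (4 * n) ≤ 1 / 8 := by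
  obtain ⟨n, hn, v, hv, hL, hQ, hT⟩ :=
    (stage (pats k) (pats_pat k) (eps_pos k)).choose_spec u hu Pn h1 h2 k L0
  have hpos : ∀ n, 1 ≤ Pn n := by
    intro n
    induction n with
    | zero => exact h1
    | succ n ih => have := h2 n; omega
  have hp := hpos (4 * n)
  have hp' : (1 : ℝ) ≤ Pn (4 * n) := by exact_mod_cast hp
  refine ⟨v, 8 * Pn (4 * n), n, hv, by omega, hL, hn, hQ, hT, fun z hz => ?_⟩
  rw [phi_append]
  have h3 : phi [8 * Pn (4 * n)] z ∈ Icc (0 : ℝ) 1 := phi_mem_Icc (good_single (by omega)) hz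
  have h4 := (phi_abs (hu.append hv) h3 ⟨le_rfl, zero_le_one⟩).2
  have hQ1 : (1 : ℝ) ≤ Q (u ++ v) := by exact_mod_cast Q_pos (hu.append hv)
  have h5 : |phi [8 * Pn (4 * n)] z - 0| ≤ 1 / (8 * Pn (4 * n)) := by
    rw [sub_zero, abs_of_nonneg h3.1]
    simp only [phi]
    push_cast
    apply one_div_le_one_div_of_le (by positivity)
    linarith [hz.1]
  have h6 : |phi [8 * Pn (4 * n)] z - 0| / (Q (u ++ v) : ℝ) ^ 2 ≤ 1 / (8 * Pn (4 * n)) := by
    refine (div_le_self (abs_nonneg _) (one_le_pow₀ hQ1)).trans h5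
  calc _ ≤ (1 / (8 * (Pn (4 * n) : ℝ))) * Pn (4 * n) := by
        gcongr
        exact h4.trans h6
    _ = 1 / 8 := by field_simp

/-- the data of the construction -/
structure Fam (P : ℕ → ℕ → ℕ) : Prop where
  zero : ∀ j, 1 ≤ P j 0
  two : ∀ j n, 2 * P j n ≤ P j (n + 1)
  dvd : ∀ j n, P j n ∣ P j (n + 1)

theorem Fam.dvd' {P : ℕ → ℕ → ℕ} (h : Fam P) (j : ℕ) {m n : ℕ} (hmn : m ≤ n) : P j m ∣ P j n := by
  induction n, hmn using Nat.le_induction with
  | base => exact dvd_rfl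
  | succ n _ ih => exact ih.trans (h.dvd j n)

theorem Fam.pos {P : ℕ → ℕ → ℕ} (h : Fam P) (j n : ℕ) : 1 ≤ P j n := by
  induction n with
  | zero => exact h.zero j
  | succ n ih => have := h.two j n; omega

/-- the required length -/
noncomputable def Len (k l : ℕ) : ℕ := (k + 1) * (l + Cst k + Cst (k + 1) + 1)

theorem step' {P : ℕ → ℕ → ℕ} (h : Fam P) (k : ℕ) (u : {u : List ℕ // Good u}) :
    ∃ (v : List ℕ) (D n : ℕ), Good v ∧ 1 ≤ D ∧
      Len k u.1.length ≤ v.length ∧ k ≤ n ∧ Q (u.1 ++ v) ∣ P (Nat.unpair k).1 n ∧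
      (∀ v' r, v = v' ++ r → Typ (pats k) (1 / ((k : ℝ) + 1)) (Cst k) v') ∧
      ∀ z ∈ Icc (0 : ℝ) 1,
        |phi (u.1 ++ v ++ [D]) z - phi (u.1 ++ v) 0| * P (Nat.unpair k).1 (4 * n) ≤ 1 / 8 :=
  step k u.2 _ (h.zero _) (h.two _) _

section

variable {P : ℕ → ℕ → ℕ} (h : Fam P)

/-- the next word -/
noncomputable def nv (k : ℕ) (u : {u : List ℕ // Good u}) : List ℕ := (step' h k u).choose

/-- the next large digit -/
noncomputable def nD (k : ℕ) (u : {u : List ℕ // Good u}) : ℕ := (step' h k u).choose_spec.choose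

/-- the next index -/
noncomputable def nn (k : ℕ) (u : {u : List ℕ // Good u}) : ℕ :=
  (step' h k u).choose_spec.choose_spec.choose

theorem n_spec (k : ℕ) (u : {u : List ℕ // Good u}) : Good (nv h k u) ∧ 1 ≤ nD h k u ∧
      Len k u.1.length ≤ (nv h k u).length ∧ k ≤ nn h k u ∧
      Q (u.1 ++ nv h k u) ∣ P (Nat.unpair k).1 (nn h k u) ∧
      (∀ v' r, nv h k u = v' ++ r → Typ (pats k) (1 / ((k : ℝ) + 1)) (Cst k) v') ∧
      ∀ z ∈ Icc (0 : ℝ) 1, |phi (u.1 ++ nv h k u ++ [nD h k u]) z - phi (u.1 ++ nv h k u) 0| *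
        P (Nat.unpair k).1 (4 * nn h k u) ≤ 1 / 8 :=
  (step' h k u).choose_spec.choose_spec.choose_spec

/-- the words -/
noncomputable def UW : ℕ → {u : List ℕ // Good u}
  | 0 => ⟨[], good_nil⟩
  | k + 1 => ⟨(UW k).1 ++ nv h k (UW k) ++ [nD h k (UW k)],
      ((UW k).2.append (n_spec h k (UW k)).1).append (good_single (n_spec h k (UW k)).2.1)⟩

/-- the words -/
noncomputable def U (k : ℕ) : List ℕ := (UW h k).1

/-- the new words -/
noncomputable def V (k : ℕ) : List ℕ := nv h k (UW h k)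

/-- the large digits -/
noncomputable def DD (k : ℕ) : ℕ := nD h k (UW h k)

/-- the indices -/
noncomputable def NN (k : ℕ) : ℕ := nn h k (UW h k)

theorem U_succ (k : ℕ) : U h (k + 1) = U h k ++ V h k ++ [DD h k] := rfl

theorem U_good (k : ℕ) : Good (U h k) := (UW h k).2

theorem V_good (k : ℕ) : Good (V h k) := (n_spec h k (UW h k)).1

theorem V_len (k : ℕ) : Len k (U h k).length ≤ (V h k).length := (n_spec h k (UW h k)).2.2.1

theorem NN_ge (k : ℕ) : k ≤ NN h k := (n_spec h k (UW h k)).2.2.2.1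

theorem Q_dvd (k : ℕ) : Q (U h k ++ V h k) ∣ P (Nat.unpair k).1 (NN h k) :=
  (n_spec h k (UW h k)).2.2.2.2.1

theorem V_typ (k : ℕ) : ∀ v' r, V h k = v' ++ r →
    Typ (pats k) (1 / ((k : ℝ) + 1)) (Cst k) v' :=
  (n_spec h k (UW h k)).2.2.2.2.2.1

theorem U_close (k : ℕ) : ∀ z ∈ Icc (0 : ℝ) 1, |phi (U h (k + 1)) z - phi (U h k ++ V h k) 0| *
    P (Nat.unpair k).1 (4 * NN h k) ≤ 1 / 8 :=
  (n_spec h k (UW h k)).2.2.2.2.2.2

theorem U_len (k : ℕ) : (U h (k + 1)).length = (U h k).length + (V h k).length + 1 := by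
  rw [U_succ]
  simp only [List.length_append, List.length_cons, List.length_nil]

theorem le_len (k : ℕ) : k ≤ (U h k).length := by
  induction k with
  | zero => exact Nat.zero_le _
  | succ k ih => rw [U_len]; omega

theorem U_prefix {k m : ℕ} (hkm : k ≤ m) : U h k <+: U h m := by
  induction m, hkm using Nat.le_induction with
  | base => exact List.prefix_rfl
  | succ m _ ih =>
    refine ih.trans ?_
    rw [U_succ, List.append_assoc]
    exact List.prefix_append _ _

theorem len_mono {k m : ℕ} (hkm : k ≤ m) : (U h k).length ≤ (U h m).length :=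
  (U_prefix h hkm).length_le

/-- the limit sequence -/
noncomputable def lim (n : ℕ) : ℕ := (U h (n + 1)).getD n 1

theorem lim_good (n : ℕ) : 1 ≤ lim h n := by
  unfold lim
  have hn := le_len h (n + 1)
  rw [List.getD_eq_getElem _ _ (by omega)]
  exact U_good h (n + 1) _ (List.getElem_mem _)

theorem get_U {k n : ℕ} (hn : n < (U h k).length) : (U h k)[n]? = some (lim h n) := by
  have h1 := le_len h (n + 1)
  have h2 : (U h (n + 1))[n]? = some (lim h n) := by
    unfold lim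
    rw [List.getD_eq_getElem _ _ (by omega), List.getElem?_eq_getElem (by omega)]
  rcases le_total k (n + 1) with hk | hk
  · obtain ⟨t, ht⟩ := U_prefix h hk
    rw [← h2, ← ht, List.getElem?_append_left hn]
  · obtain ⟨t, ht⟩ := U_prefix h hk
    rw [← h2, ← ht, List.getElem?_append_left (by omega)]

theorem pre_lim (k : ℕ) {N : ℕ} (hN : N ≤ (U h k).length) : pre (lim h) N = (U h k).take N := by
  apply List.ext_getElem?
  intro i
  unfold pre
  rw [List.getElem?_map, List.getElem?_take]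
  by_cases hi : i < N
  · rw [if_pos hi, get_U h (hi.trans_le hN), List.getElem?_range hi]
    rfl
  · rw [if_neg hi, List.getElem?_eq_none (by rw [List.length_range]; omega)]
    rfl

theorem pre_lim' (k : ℕ) : pre (lim h) (U h k).length = U h k := by
  rw [pre_lim h k le_rfl, List.take_length]

/-! ### frequencies -/

theorem EE_U {s : List ℕ} (hg : Good s) (hs : s ≠ []) {k : ℕ} (hk : Encodable.encode s < k) :
    |EE s (U h (k + 1))| ≤ 2 * (U h (k + 1)).length / ((k : ℝ) + 1) + 2 * s.length := by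
  have h1 := EE_append hs (U h k ++ V h k) [DD h k]
  have h2 := EE_append hs (U h k) (V h k)
  have h3 := EE_le hg (U h k)
  have h4 := EE_le hg [DD h k]
  have h5 : |EE s (V h k)| ≤ 1 / ((k : ℝ) + 1) * (V h k).length + Cst k :=
    V_typ h k (V h k) [] (by simp) s (mem_pats hg hs hk)
  have h6 := V_len h k
  have h7 := U_len h k
  rw [← U_succ] at h1
  unfold Len at h6
  have hk0 : (0 : ℝ) < (k : ℝ) + 1 := by positivity
  have h6' : ((k : ℝ) + 1) * ((U h k).length + Cst k + Cst (k + 1) + 1) ≤ (V h k).length := by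
    exact_mod_cast h6
  have h7' : ((U h (k + 1)).length : ℝ) = (U h k).length + (V h k).length + 1 := by
    exact_mod_cast h7
  have h8 : ((U h k).length : ℝ) + Cst k + Cst (k + 1) + 1 ≤ (V h k).length / ((k : ℝ) + 1) := by
    rw [le_div_iff₀ hk0]
    linarith
  have h9 : 2 * ((U h (k + 1)).length : ℝ) / ((k : ℝ) + 1) ≥ 2 * ((V h k).length / ((k : ℝ) + 1)) := by
    rw [mul_div_assoc]
    have : (0 : ℝ) ≤ (U h k).length := by positivity
    gcongr
    linarith
  have h10 : 1 / ((k : ℝ) + 1) * (V h k).length = (V h k).length / ((k : ℝ) + 1) := by ring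
  have hc1 : (0 : ℝ) ≤ Cst k := by positivity
  have hc2 : (0 : ℝ) ≤ Cst (k + 1) := by positivity
  simp only [List.length_cons, List.length_nil, zero_add, Nat.cast_one] at h4
  rw [h10] at h5
  rw [abs_le] at *
  constructor <;> linarith [h1.1, h1.2, h2.1, h2.2, h3.1, h3.2, h4.1, h4.2, h5.1, h5.2]

theorem EE_pre {s : List ℕ} (hg : Good s) (hs : s ≠ []) {k : ℕ} (hk : Encodable.encode s < k)
    {N : ℕ} (hN1 : (U h (k + 1)).length ≤ N) (hN2 : N < (U h (k + 2)).length) :
    |EE s (pre (lim h) N)| ≤ 4 * N / ((k : ℝ) + 1) + 3 * s.length := by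
  obtain ⟨m, rfl⟩ := Nat.exists_eq_add_of_le hN1
  have hm : m ≤ (V h (k + 1)).length := by
    have : (U h (k + 2)).length = (U h (k + 1)).length + (V h (k + 1)).length + 1 := U_len h (k + 1)
    omega
  have e : pre (lim h) ((U h (k + 1)).length + m) = U h (k + 1) ++ (V h (k + 1)).take m := by
    rw [pre_lim h (k + 2) hN2.le,
      show U h (k + 2) = U h (k + 1) ++ V h (k + 1) ++ [DD h (k + 1)] from rfl,
      List.append_assoc, List.take_append,
      List.take_of_length_le (by omega), Nat.add_sub_cancel_left, List.take_append_of_le_length hm]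
  rw [e]
  have h1 := EE_append hs (U h (k + 1)) ((V h (k + 1)).take m)
  have h2 := EE_U h hg hs hk
  have h3 : |EE s ((V h (k + 1)).take m)| ≤
      1 / (((k + 1 : ℕ) : ℝ) + 1) * ((V h (k + 1)).take m).length + Cst (k + 1) :=
    V_typ h (k + 1) _ ((V h (k + 1)).drop m) (List.take_append_drop _ _).symm s
      (mem_pats hg hs (by omega))
  rw [List.length_take, min_eq_left hm] at h3
  have hk0 : (0 : ℝ) < (k : ℝ) + 1 := by positivity
  have h4 := V_len h k
  have h5 := U_len h k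
  unfold Len at h4
  have h4' : ((k : ℝ) + 1) * ((U h k).length + Cst k + Cst (k + 1) + 1) ≤ (V h k).length := by
    exact_mod_cast h4
  have h5' : ((U h (k + 1)).length : ℝ) = (U h k).length + (V h k).length + 1 := by
    exact_mod_cast h5
  have hc1 : (0 : ℝ) ≤ Cst k := by positivity
  have hc0 : (0 : ℝ) ≤ (U h k).length := by positivity
  have h6 : (Cst (k + 1) : ℝ) ≤ (U h (k + 1)).length / ((k : ℝ) + 1) := by
    rw [le_div_iff₀ hk0]
    nlinarith
  have h7 : 1 / (((k + 1 : ℕ) : ℝ) + 1) * m ≤ m / ((k : ℝ) + 1) := by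
    rw [one_div_mul_eq_div]
    push_cast
    gcongr
    linarith
  have h8 : 4 * (((U h (k + 1)).length + m : ℕ) : ℝ) / ((k : ℝ) + 1) =
      4 * ((U h (k + 1)).length / ((k : ℝ) + 1)) + 4 * (m / ((k : ℝ) + 1)) := by
    push_cast
    ring
  have h9 : 2 * ((U h (k + 1)).length : ℝ) / ((k : ℝ) + 1) =
    2 * ((U h (k + 1)).length / ((k : ℝ) + 1)) := by ring
  rw [h8]
  rw [h9] at h2
  have hp1 : (0 : ℝ) ≤ (U h (k + 1)).length / ((k : ℝ) + 1) := by positivity
  have hp2 : (0 : ℝ) ≤ m / ((k : ℝ) + 1) := by positivity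
  rw [abs_le] at *
  constructor <;> linarith [h1.1, h1.2, h2.1, h2.2, h3.1, h3.2]

theorem freq {s : List ℕ} (hg : Good s) (hs : s ≠ []) :
    Tendsto (fun N : ℕ => (occS s (lim h) N : ℝ) / N) atTop (𝓝 (gs s)) := by
  rw [Metric.tendsto_atTop]
  intro ε hε
  obtain ⟨k1, hk1⟩ := exists_nat_gt (16 / ε)
  set k2 : ℕ := max k1 (Encodable.encode s + 1) with hk2
  obtain ⟨N1, hN1⟩ := exists_nat_gt (16 * s.length / ε)
  refine ⟨max (max N1 1) (U h (k2 + 1)).length, fun N hN => ?_⟩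
  have hNa : N1 ≤ N := (le_max_left _ _).trans ((le_max_left _ _).trans hN)
  have hNb : 1 ≤ N := (le_max_right _ _).trans ((le_max_left _ _).trans hN)
  have hNc : (U h (k2 + 1)).length ≤ N := (le_max_right _ _).trans hN
  have hex : ∃ m, N < (U h m).length := ⟨N + 1, by have := le_len h (N + 1); omega⟩
  classical
  obtain ⟨m, hm1, hm2⟩ : ∃ m, N < (U h m).length ∧ ∀ m', m' < m → (U h m').length ≤ N :=
    ⟨Nat.find hex, Nat.find_spec hex, fun m' hm' => not_lt.1 (Nat.find_min hex hm')⟩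
  have hm3 : k2 + 1 < m := by
    by_contra hcon
    have := len_mono h (not_lt.1 hcon)
    omega
  obtain ⟨k, rfl⟩ : ∃ k, m = k + 2 := ⟨m - 2, by omega⟩
  have hkk : k2 ≤ k := by omega
  have hN2 : (U h (k + 1)).length ≤ N := hm2 _ (by omega)
  have h1 := EE_pre h hg hs (k := k) (by omega) hN2 hm1
  have h2 := occS_bounds hs (lim h) N
  have h2a : (occ s (pre (lim h) N) : ℝ) ≤ occS s (lim h) N := by exact_mod_cast h2.1
  have h2b : (occS s (lim h) N : ℝ) ≤ occ s (pre (lim h) N) + s.length := by exact_mod_cast h2.2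
  have hN0 : (0 : ℝ) < N := by exact_mod_cast hNb
  have hk3 : (k1 : ℝ) ≤ k := by
    have : k1 ≤ k := (le_max_left _ _).trans hkk
    exact_mod_cast this
  have h3 : 4 * (N : ℝ) / ((k : ℝ) + 1) ≤ ε / 4 * N := by
    rw [div_le_iff₀ (by positivity)]
    rw [div_lt_iff₀ hε] at hk1
    have h16 : 16 ≤ ε * ((k : ℝ) + 1) := by nlinarith
    calc 4 * (N : ℝ) = N / 4 * 16 := by ring
      _ ≤ N / 4 * (ε * ((k : ℝ) + 1)) := by gcongr
      _ = ε / 4 * N * ((k : ℝ) + 1) := by ring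
  have h4 : 4 * (s.length : ℝ) ≤ ε / 4 * N := by
    rw [div_lt_iff₀ hε] at hN1
    have : (N1 : ℝ) ≤ N := by exact_mod_cast hNa
    nlinarith
  unfold EE at h1
  rw [pre_length] at h1
  rw [Real.dist_eq]
  have h5 : (occS s (lim h) N : ℝ) / N - gs s = (occS s (lim h) N - gs s * N) / N := by
    field_simp
  rw [h5, abs_div, abs_of_pos hN0, div_lt_iff₀ hN0]
  have h6 : |(occS s (lim h) N : ℝ) - gs s * N| ≤ ε / 2 * N := by
    rw [abs_le] at *
    constructor <;> linarith [h1.1, h1.2]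
  have : ε / 2 * N < ε * N := by nlinarith
  linarith

/-! ### multiples -/

theorem multiples (j K : ℕ) : ∃ n, K ≤ n ∧ ∀ i, n ≤ i → i ≤ 4 * n →
    ∃ z : ℤ, |(P j i : ℝ) * X (lim h) - z| ≤ 1 / 8 := by
  set k := Nat.pair j K with hk
  have hj : (Nat.unpair k).1 = j := by rw [hk, Nat.unpair_pair]
  have hK : K ≤ k := Nat.right_le_pair j K
  refine ⟨NN h k, hK.trans (NN_ge h k), fun i hi1 hi2 => ?_⟩
  have h1 : X (lim h) = phi (U h (k + 1)) (X (sh (lim h) (U h (k + 1)).length)) := by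
    conv_lhs => rw [X_pre (lim_good h) (U h (k + 1)).length]
    rw [pre_lim']
  have h2 := X_nonneg (sh_good (lim_good h) (U h (k + 1)).length)
  have h3 := U_close h k _ h2
  rw [← h1, hj] at h3
  have hg : Good (U h k ++ V h k) := (U_good h k).append (V_good h k)
  have h4 : Q (U h k ++ V h k) ∣ P j i := by
    have := Q_dvd h k
    rw [hj] at this
    exact this.trans (h.dvd' j hi1)
  obtain ⟨c, hc⟩ := h4
  have hQ : (Q (U h k ++ V h k) : ℝ) ≠ 0 := by
    have := Q_pos hg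
    exact_mod_cast (by omega : Q (U h k ++ V h k) ≠ 0)
  refine ⟨(c * Pw (U h k ++ V h k) : ℕ), ?_⟩
  have h5 : (P j i : ℝ) * phi (U h k ++ V h k) 0 = ((c * Pw (U h k ++ V h k) : ℕ) : ℤ) := by
    rw [phi_zero hg, hc]
    push_cast
    field_simp
  rw [← h5, ← mul_sub, abs_mul, Nat.abs_cast, mul_comm]
  refine le_trans ?_ h3
  have h6 : (P j i : ℝ) ≤ P j (4 * NN h k) := by
    have := Nat.le_of_dvd (h.pos j (4 * NN h k)) (h.dvd' j hi2)
    exact_mod_cast this
  gcongr

end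

/-- **The construction.** -/
theorem core {P : ℕ → ℕ → ℕ} (h : Fam P) : ∃ a : ℕ → ℕ, (∀ n, 1 ≤ a n) ∧
    (∀ s, Good s → s ≠ [] → Tendsto (fun N : ℕ => (occS s a N : ℝ) / N) atTop (𝓝 (gs s))) ∧
    ∀ j K, ∃ n, K ≤ n ∧ ∀ i, n ≤ i → i ≤ 4 * n → ∃ z : ℤ, |(P j i : ℝ) * X a - z| ≤ 1 / 8 :=
  ⟨lim h, lim_good h, fun _ hg hs => freq h hg hs, multiples h⟩

end Pool.Agent.X886.CFN
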