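import Pool.Agent.X886.CFN.Words
import Pool.Agent.R357.CF.Norm

/-!
# The Gauss measure of cylinders and almost sure frequencies
-/

set_option autoImplicit false

open Filter Set MeasureTheory
open scoped Topology ENNReal

namespace Pool.Agent.X886.CFN

open Pool.Agent.R357.CF Pool.Agent.W811.Stu Pool.Agent.W174.Stu

/-- the Gauss measure of the cylinder of a word -/
noncomputable def gs (s : List ℕ) : ℝ :=
  |Real.log (1 + phi s 0) - Real.log (1 + phi s 1)| / Real.log 2

theorem log_diff {s : List ℕ} (hs : Good s) : Real.log (1 + phi s 0) - Real.log (1 + phi s 1) =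
    Real.log (Q s + Pw s) + Real.log (Q s + Q' s) - Real.log (Q s) -
      Real.log (Q s + Q' s + (Pw s + Pw' s)) := by
  have hQ : (1 : ℝ) ≤ Q s := by exact_mod_cast Q_pos hs
  have hQ' : (0 : ℝ) ≤ Q' s := by positivity
  have hP : (0 : ℝ) ≤ Pw s := by positivity
  have hP' : (0 : ℝ) ≤ Pw' s := by positivity
  have h1 : 1 + phi s 0 = (Q s + Pw s) / Q s := by
    rw [phi_zero hs]
    field_simp
  have h2 : 1 + phi s 1 = (Q s + Q' s + (Pw s + Pw' s)) / (Q s + Q' s) := by
    rw [phi_one hs]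
    field_simp
  rw [h1, h2, Real.log_div (by positivity) (by positivity), Real.log_div (by positivity) (by positivity)]
  ring

theorem gs_reverse {s : List ℕ} (hs : Good s) : gs s.reverse = gs s := by
  unfold gs
  rw [log_diff hs, log_diff (Good.reverse hs), Q_reverse, Q'_reverse, Pw_reverse, Pw'_reverse,
    show (Q s : ℝ) + Pw s + (Q' s + Pw' s) = Q s + Q' s + (Pw s + Pw' s) by ring,
    add_comm (Real.log ((Q s : ℝ) + Q' s))]

/-! ### images of intervals -/

theorem phi_cont {w : List ℕ} (hw : Good w) : ContinuousOn (phi w) (Icc (0 : ℝ) 1) := by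
  have h : LipschitzOnWith 1 (phi w) (Icc (0 : ℝ) 1) := by
    apply LipschitzOnWith.of_dist_le_mul
    intro z hz z' hz'
    rw [Real.dist_eq, Real.dist_eq, NNReal.coe_one, one_mul]
    refine ((phi_abs hw hz hz').2).trans ?_
    have hQ : (1 : ℝ) ≤ Q w := by exact_mod_cast Q_pos hw
    rw [div_le_iff₀ (by positivity)]
    have : (1 : ℝ) ≤ (Q w : ℝ) ^ 2 := one_le_pow₀ hQ
    nlinarith [abs_nonneg (z - z')]
  exact h.continuousOn

theorem phi_lt {w : List ℕ} (hw : Good w) (he : Even w.length) {z z' : ℝ} (hz : 0 ≤ z)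
    (h : z < z') : phi w z < phi w z' := by
  have h1 := phi_sub hw (hz.trans h.le) hz
  rw [he.neg_one_pow, one_mul] at h1
  have h2 := (phi_formula hw hz).1
  have h3 := (phi_formula hw (hz.trans h.le)).1
  have : 0 < (z' - z) / (((Q w : ℝ) + Q' w * z') * ((Q w : ℝ) + Q' w * z)) := by
    apply div_pos (by linarith) (mul_pos h3 h2)
  linarith

theorem phi_gt {w : List ℕ} (hw : Good w) (ho : Odd w.length) {z z' : ℝ} (hz : 0 ≤ z)
    (h : z < z') : phi w z' < phi w z := by
  have h1 := phi_sub hw (hz.trans h.le) hz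
  rw [ho.neg_one_pow] at h1
  have h2 := (phi_formula hw hz).1
  have h3 := (phi_formula hw (hz.trans h.le)).1
  have : 0 < (z' - z) / (((Q w : ℝ) + Q' w * z') * ((Q w : ℝ) + Q' w * z)) := by
    apply div_pos (by linarith) (mul_pos h3 h2)
  have e : -1 * (z' - z) / (((Q w : ℝ) + Q' w * z') * ((Q w : ℝ) + Q' w * z)) =
    -((z' - z) / (((Q w : ℝ) + Q' w * z') * ((Q w : ℝ) + Q' w * z))) := by ring
  rw [e] at h1
  linarith

theorem image_phi {w : List ℕ} (hw : Good w) {t : ℝ} (ht0 : 0 < t) (ht1 : t ≤ 1) :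
    phi w '' Ioo 0 t = Ioo (min (phi w 0) (phi w t)) (max (phi w 0) (phi w t)) := by
  have hc : ContinuousOn (phi w) (Icc 0 t) := (phi_cont hw).mono (Icc_subset_Icc_right ht1)
  rcases Nat.even_or_odd w.length with he | ho
  · have h01 := phi_lt hw he le_rfl ht0
    rw [min_eq_left h01.le, max_eq_right h01.le]
    apply Subset.antisymm
    · rintro _ ⟨z, hz, rfl⟩
      exact ⟨phi_lt hw he le_rfl hz.1, phi_lt hw he hz.1.le hz.2⟩
    · exact intermediate_value_Ioo ht0.le hc
  · have h01 := phi_gt hw ho le_rfl ht0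
    rw [min_eq_right h01.le, max_eq_left h01.le]
    apply Subset.antisymm
    · rintro _ ⟨z, hz, rfl⟩
      exact ⟨phi_gt hw ho hz.1.le hz.2, phi_gt hw ho le_rfl hz.1⟩
    · exact intermediate_value_Ioo' ht0.le hc

theorem gam_singleton (a : ℝ) : gam {a} = 0 := by
  apply gam_ac
  rw [Measure.restrict_apply (measurableSet_singleton a)]
  exact measure_mono_null inter_subset_left Real.volume_singleton

theorem gam_Ioo {a b : ℝ} (h0 : 0 ≤ a) (hab : a ≤ b) (h1 : b ≤ 1) :
    gam (Ioo a b) = ENNReal.ofReal ((Real.log (1 + b) - Real.log (1 + a)) / Real.log 2) := by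
  have e1 : gam (Ioo a b) = gam (Ico a b) := by
    apply le_antisymm (measure_mono Ioo_subset_Ico_self)
    calc gam (Ico a b) ≤ gam ({a} ∪ Ioo a b) := measure_mono (by
          intro x hx
          rcases hx.1.eq_or_lt with h | h
          · left
            exact h.symm
          · right
            exact ⟨h, hx.2⟩)
      _ ≤ gam {a} + gam (Ioo a b) := measure_union_le _ _
      _ = _ := by rw [gam_singleton, zero_add]
  have e2 : Ico a b = Iio b \ Iio a := by
    ext x
    simp only [mem_Ico, Set.mem_sdiff, mem_Iio, not_lt]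
    exact and_comm
  rw [e1, e2, measure_sdiff (Iio_subset_Iio hab) measurableSet_Iio.nullMeasurableSet
    (measure_ne_top _ _), gam_Iio (h0.trans hab) h1, gam_Iio h0 (hab.trans h1), sub_div,
    ENNReal.ofReal_sub]
  apply div_nonneg (Real.log_nonneg (by linarith)) (Real.log_nonneg (by norm_num))

/-- the cylinder of a word -/
def Cy (s : List ℕ) : Set ℝ := phi s '' Ioo 0 1

theorem measurable_Cy {s : List ℕ} (hs : Good s) : MeasurableSet (Cy s) := by
  unfold Cy
  rw [image_phi hs one_pos le_rfl]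
  exact measurableSet_Ioo

theorem gam_Cy {s : List ℕ} (hs : Good s) : gam (Cy s) = ENNReal.ofReal (gs s) := by
  unfold Cy gs
  rw [image_phi hs one_pos le_rfl]
  have h0 := phi_mem_Icc hs (z := 0) ⟨le_rfl, zero_le_one⟩
  have h1 := phi_mem_Icc hs (z := 1) ⟨zero_le_one, le_rfl⟩
  rcases le_total (phi s 0) (phi s 1) with h | h
  · rw [min_eq_left h, max_eq_right h, gam_Ioo h0.1 h h1.2, abs_sub_comm, abs_of_nonneg]
    have := Real.log_le_log (by linarith [h0.1]) (show 1 + phi s 0 ≤ 1 + phi s 1 by linarith)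
    linarith
  · rw [min_eq_right h, max_eq_left h, gam_Ioo h1.1 h h0.2, abs_of_nonneg]
    have := Real.log_le_log (by linarith [h1.1]) (show 1 + phi s 1 ≤ 1 + phi s 0 by linarith)
    linarith

theorem gs_nonneg (s : List ℕ) : 0 ≤ gs s :=
  div_nonneg (abs_nonneg _) (Real.log_nonneg (by norm_num))

theorem gs_le_one {s : List ℕ} (hs : Good s) : gs s ≤ 1 := by
  have h : gam (Cy s) ≤ 1 := prob_le_one
  rw [gam_Cy hs, ENNReal.ofReal_le_one] at h
  exact h

theorem mem_Cy_iff {s : List ℕ} (hs : Good s) {y : ℝ} (hi : Irrational y) (hy : y ∈ Ioo (0 : ℝ) 1)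
    (n : ℕ) : gauss^[n] y ∈ Cy s ↔ ∀ i < s.length, some (dig y (n + i)) = s[i]? := by
  obtain ⟨h1, h2⟩ := iter_mem hi hy n
  constructor
  · rintro ⟨z, hz, hzy⟩ i hi'
    have h3 := pre_dig_phi hs hz 0
    rw [hzy] at h3
    simp only [pre, List.range_zero, List.map_nil, List.append_nil, add_zero] at h3
    rw [dig_add, ← h3, List.getElem?_map, List.getElem?_range hi']
    rfl
  · intro h
    obtain ⟨h3, h4⟩ := dig_props h1 h2
    have h5 : pre (dig (gauss^[n] y)) s.length = s := by
      apply List.ext_getElem?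
      intro i
      by_cases hi' : i < s.length
      · rw [← h i hi', dig_add]
        unfold pre
        rw [List.getElem?_map, List.getElem?_range hi']
        rfl
      · rw [List.getElem?_eq_none (by rw [pre_length]; omega), List.getElem?_eq_none (by omega)]
    refine ⟨gauss^[s.length] (gauss^[n] y), (iter_mem h1 h2 _).2, ?_⟩
    have h6 := h4 s.length
    rw [h5] at h6
    exact h6.symm

theorem vol_le_gam {A : Set ℝ} (hA : MeasurableSet A) : volume (A ∩ Ioo 0 1) ≤ 2 * gam A := by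
  rw [gam_apply hA]
  have h1 : volume (A ∩ Ioo 0 1) ≤ 2 * gm A := by
    unfold gm
    rw [← lintegral_const_mul' _ _ (by simp), ← setLIntegral_one]
    calc ∫⁻ x in A ∩ Ioo 0 1, 1 ≤ ∫⁻ x in A ∩ Ico 0 1, 1 :=
          lintegral_mono_set (inter_subset_inter_right _ Ioo_subset_Ico_self)
      _ ≤ _ := by
        refine setLIntegral_mono' (hA.inter measurableSet_Ico) fun x hx => ?_
        have hx0 := hx.2.1
        have hx1 := hx.2.2
        have : (1:ℝ) ≤ 2 * (1 / (1 + x)) := by
          rw [mul_one_div, le_div_iff₀ (by positivity)]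
          linarith
        calc (1 : ℝ≥0∞) = ENNReal.ofReal 1 := by simp
          _ ≤ ENNReal.ofReal (2 * (1 / (1 + x))) := ENNReal.ofReal_le_ofReal this
          _ = 2 * ENNReal.ofReal (1 / (1 + x)) := by
            rw [ENNReal.ofReal_mul (by norm_num)]; norm_num
  refine h1.trans ?_
  gcongr
  calc gm A = 1 * gm A := (one_mul _).symm
    _ ≤ (ENNReal.ofReal (Real.log 2))⁻¹ * gm A := by
      gcongr
      rw [ENNReal.one_le_inv, ENNReal.ofReal_le_one]
      have := Real.log_two_lt_d9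
      linarith

/-! ### almost sure frequencies -/

/-- visits to the cylinder -/
noncomputable def vis (s : List ℕ) (m : ℕ) (y : ℝ) : ℝ :=
  ∑ n ∈ Finset.range m, (Cy s).indicator (fun _ => (1 : ℝ)) (gauss^[n] y)

theorem measurable_vis {s : List ℕ} (hs : Good s) (m : ℕ) : Measurable (vis s m) := by
  unfold vis
  refine Finset.measurable_fun_sum _ fun n _ => ?_
  exact (measurable_const.indicator (measurable_Cy hs)).comp (measurable_gauss_iterate n)

theorem vis_eq {s : List ℕ} (hs : Good s) {y : ℝ} (hi : Irrational y) (hy : y ∈ Ioo (0 : ℝ) 1)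
    (m : ℕ) : vis s m y = occS s (dig y) m := by
  classical
  unfold vis occS
  rw [Finset.card_filter]
  push_cast
  refine Finset.sum_congr rfl fun n _ => ?_
  by_cases h : gauss^[n] y ∈ Cy s
  · rw [indicator_of_mem h, if_pos ((mem_Cy_iff hs hi hy n).1 h)]
  · rw [indicator_of_notMem h, if_neg fun h' => h ((mem_Cy_iff hs hi hy n).2 h')]

theorem vis_bounds (s : List ℕ) (m : ℕ) (y : ℝ) : 0 ≤ vis s m y ∧ vis s m y ≤ m := by
  unfold vis
  constructor
  · exact Finset.sum_nonneg fun n _ => indicator_nonneg (fun _ _ => zero_le_one) _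
  · calc _ ≤ ∑ n ∈ Finset.range m, (1 : ℝ) := Finset.sum_le_sum fun n _ =>
        indicator_le_self' (fun _ _ => zero_le_one) _
      _ = m := by simp

theorem ae_vis {s : List ℕ} (hs : Good s) : ∀ᵐ y ∂gam, Tendsto (fun m : ℕ => (m : ℝ)⁻¹ * vis s m y)
    atTop (𝓝 (gs s)) := by
  have hb := Pool.Agent.H165R3.birkhoff erg ((Cy s).indicator (fun _ => (1:ℝ)))
    (measurable_const.indicator (measurable_Cy hs)) ⟨1, fun x => by
      by_cases hx : x ∈ Cy s
      · simp [indicator_of_mem hx]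
      · simp [indicator_of_notMem hx]⟩
  have e1 : ∫ x, (Cy s).indicator (fun _ => (1:ℝ)) x ∂gam = gs s := by
    rw [integral_indicator (measurable_Cy hs), setIntegral_const, smul_eq_mul, mul_one,
      Measure.real, gam_Cy hs, ENNReal.toReal_ofReal (gs_nonneg s)]
  rw [e1] at hb
  exact hb

/-- large deviations -/
def Dev (s : List ℕ) (ε : ℝ) (C : ℕ) : Set ℝ :=
  {y | ∃ m : ℕ, ε * m + C < |vis s m y - gs s * m|}

theorem measurable_Dev {s : List ℕ} (hs : Good s) (ε : ℝ) (C : ℕ) :
    MeasurableSet (Dev s ε C) := by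
  have : Dev s ε C = ⋃ m : ℕ, {y | ε * m + C < |vis s m y - gs s * m|} := by
    ext y
    simp [Dev]
  rw [this]
  refine MeasurableSet.iUnion fun m => ?_
  exact measurableSet_lt measurable_const
    (((measurable_vis hs m).sub measurable_const).abs)

theorem Dev_tendsto {s : List ℕ} (hs : Good s) {ε : ℝ} (hε : 0 < ε) :
    Tendsto (fun C => gam (Dev s ε C)) atTop (𝓝 0) := by
  have hanti : Antitone (Dev s ε) := by
    intro C C' hCC y ⟨m, hm⟩
    refine ⟨m, lt_of_le_of_lt ?_ hm⟩
    have : (C : ℝ) ≤ C' := by exact_mod_cast hCC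
    linarith
  have h0 : gam (⋂ C, Dev s ε C) = 0 := by
    rw [measure_eq_zero_iff_ae_notMem]
    filter_upwards [ae_vis hs] with y hy
    rw [mem_iInter]
    intro hall
    rw [Metric.tendsto_atTop] at hy
    obtain ⟨m0, hm0⟩ := hy ε hε
    obtain ⟨m, hm⟩ := hall (m0 * 2 + 1)
    have hv := vis_bounds s m y
    have hg0 := gs_nonneg s
    have hg1 := gs_le_one hs
    rcases Nat.lt_or_ge m (m0 + 1) with hlt | hge
    · have h1 : (m : ℝ) ≤ m0 := by exact_mod_cast Nat.lt_succ_iff.1 hlt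
      have h2 : |vis s m y - gs s * m| ≤ m := by
        rw [abs_le]
        constructor
        · nlinarith
        · nlinarith
      push_cast at hm
      have h3 : (0 : ℝ) ≤ m0 := by positivity
      have h4 : 0 ≤ ε * m := by positivity
      linarith
    · have hm1 : 0 < m := by omega
      have hm1' : (0 : ℝ) < m := by exact_mod_cast hm1
      have h1 := hm0 m (by omega)
      rw [Real.dist_eq] at h1
      have h2 : vis s m y - gs s * m = m * ((m : ℝ)⁻¹ * vis s m y - gs s) := by
        field_simp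
      rw [h2, abs_mul, abs_of_pos hm1'] at hm
      have h3 : (m : ℝ) * |(m : ℝ)⁻¹ * vis s m y - gs s| ≤ m * ε := by gcongr
      push_cast at hm
      have h4 : (0 : ℝ) ≤ m0 := by positivity
      nlinarith
  rw [← h0]
  exact tendsto_measure_iInter_atTop (fun C => (measurable_Dev hs ε C).nullMeasurableSet) hanti
    ⟨0, measure_ne_top _ _⟩

/-- a word is typical with respect to the patterns in `S` -/
def Typ (S : Finset (List ℕ)) (ε : ℝ) (C : ℕ) (w : List ℕ) : Prop :=
  ∀ s ∈ S, |(occ s w : ℝ) - gs s * w.length| ≤ ε * w.length + C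

/-- the points with some initial segment which is not typical -/
def UU (S : Finset (List ℕ)) (ε : ℝ) (C : ℕ) : Set ℝ :=
  {y | Irrational y ∧ y ∈ Ioo (0 : ℝ) 1 ∧ ∃ m : ℕ, ¬ Typ S ε C (pre (dig y) m)}

/-- patterns -/
def Pat (S : Finset (List ℕ)) : Prop := ∀ s ∈ S, Good s ∧ s ≠ []

theorem vol_UU (S : Finset (List ℕ)) (hS : Pat S) {ε : ℝ} (hε : 0 < ε) {η : ℝ} (hη : 0 < η) :
    ∃ C : ℕ, volume (UU S ε C) ≤ ENNReal.ofReal η := by
  classical
  set δ : ℝ := η / (2 * (S.card + 1)) with hδ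
  have hδ0 : 0 < δ := by positivity
  have hex : ∀ s : List ℕ, ∃ C : ℕ, s ∈ S → gam (Dev s ε C) ≤ ENNReal.ofReal δ := by
    intro s
    by_cases hs : s ∈ S
    · have h1 := Dev_tendsto (hS s hs).1 hε
      have h2 : ∀ᶠ C in atTop, gam (Dev s ε C) < ENNReal.ofReal δ :=
        (tendsto_order.1 h1).2 _ (ENNReal.ofReal_pos.2 hδ0)
      obtain ⟨C, hC⟩ := h2.exists
      exact ⟨C, fun _ => hC.le⟩
    · exact ⟨0, fun h => absurd h hs⟩
  choose C hC using hex
  refine ⟨S.sup fun s => C s + s.length, ?_⟩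
  have hsub : UU S ε (S.sup fun s => C s + s.length) ⊆ ⋃ s ∈ S, Dev s ε (C s) ∩ Ioo 0 1 := by
    rintro y ⟨hi, hy, m, hm⟩
    unfold Typ at hm
    push Not at hm
    obtain ⟨s, hs, hm⟩ := hm
    rw [pre_length] at hm
    rw [mem_iUnion₂]
    refine ⟨s, hs, ⟨m, ?_⟩, hy⟩
    rw [vis_eq (hS s hs).1 hi hy]
    obtain ⟨h1, h2⟩ := occS_bounds (hS s hs).2 (dig y) m
    have h1' : (occ s (pre (dig y) m) : ℝ) ≤ occS s (dig y) m := by exact_mod_cast h1
    have h2' : (occS s (dig y) m : ℝ) ≤ occ s (pre (dig y) m) + s.length := by exact_mod_cast h2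
    have h3 : C s + s.length ≤ S.sup fun s => C s + s.length := Finset.le_sup (f := fun s => C s + s.length) hs
    have h3' : (C s : ℝ) + s.length ≤ ((S.sup fun s => C s + s.length : ℕ) : ℝ) := by exact_mod_cast h3
    have h4 : |(occ s (pre (dig y) m) : ℝ) - gs s * m| ≤
        |(occS s (dig y) m : ℝ) - gs s * m| + s.length := by
      have e : (occ s (pre (dig y) m) : ℝ) - gs s * m = ((occS s (dig y) m : ℝ) - gs s * m) +
        ((occ s (pre (dig y) m) : ℝ) - occS s (dig y) m) := by ring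
      rw [e]
      refine (abs_add_le _ _).trans ?_
      gcongr
      rw [abs_le]
      constructor <;> linarith
    linarith
  calc volume (UU S ε (S.sup fun s => C s + s.length))
      ≤ volume (⋃ s ∈ S, Dev s ε (C s) ∩ Ioo 0 1) := measure_mono hsub
    _ ≤ ∑ s ∈ S, volume (Dev s ε (C s) ∩ Ioo 0 1) := measure_biUnion_finset_le _ _
    _ ≤ ∑ s ∈ S, 2 * ENNReal.ofReal δ := Finset.sum_le_sum fun s hs =>
        (vol_le_gam (measurable_Dev (hS s hs).1 _ _)).trans (by gcongr; exact hC s hs)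
    _ = ENNReal.ofReal (S.card * (2 * δ)) := by
        rw [Finset.sum_const, nsmul_eq_mul, ENNReal.ofReal_mul (by positivity),
          ENNReal.ofReal_natCast, ENNReal.ofReal_mul (by norm_num)]
        norm_num
    _ ≤ ENNReal.ofReal η := by
        apply ENNReal.ofReal_le_ofReal
        rw [hδ]
        have : (S.card : ℝ) * (2 * (η / (2 * (S.card + 1)))) = η * (S.card / (S.card + 1)) := by
          field_simp
        rw [this]
        have h5 : (S.card : ℝ) / (S.card + 1) ≤ 1 := by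
          rw [div_le_one (by positivity)]
          linarith
        nlinarith

/-! ### the growth of the denominators -/

theorem Q_le_prod (a : ℕ → ℕ) (ha : ∀ n, 1 ≤ a n) (m : ℕ) :
    Q (pre a m) ≤ ∏ i ∈ Finset.range m, (a i + 1) := by
  induction m with
  | zero => simp [pre, Q, cq]
  | succ m ih =>
    rw [pre_succ, Q_append, Finset.prod_range_succ]
    have := Q'_le (pre_good ha m)
    calc a m * Q (pre a m) + Q' (pre a m) ≤ Q (pre a m) * (a m + 1) := by linarith
      _ ≤ _ := Nat.mul_le_mul_right _ ih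

/-- the logarithm of the first digit -/
noncomputable def HH (y : ℝ) : ℝ≥0∞ := ENNReal.ofReal (Real.log ((⌊y⁻¹⌋₊ : ℝ) + 1))

theorem measurable_HH : Measurable HH := by
  unfold HH
  refine ENNReal.measurable_ofReal.comp (Real.measurable_log.comp ?_)
  exact (measurable_from_nat (f := fun n : ℕ => (n : ℝ))).comp
    (Nat.measurable_floor.comp measurable_inv) |>.add_const 1

theorem HH_fin : ∫⁻ y, HH y ∂gam ≠ ⊤ := by
  have h1 : ∫⁻ y, HH y ∂gam ≤ (ENNReal.ofReal (Real.log 2))⁻¹ *
      ∫⁻ y in Ioo (0 : ℝ) 1, ENNReal.ofReal (4 * y ^ (-(1 / 2) : ℝ)) := by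
    unfold gam
    rw [lintegral_smul_measure, smul_eq_mul]
    refine mul_le_mul' le_rfl ?_
    rw [Measure.restrict_congr_set Ioo_ae_eq_Ico.symm,
      lintegral_withDensity_eq_lintegral_mul _ (by fun_prop) measurable_HH]
    refine setLIntegral_mono' measurableSet_Ioo fun y hy => ?_
    simp only [Pi.mul_apply]
    have hy0 := hy.1
    have hy1 := hy.2
    unfold HH
    rw [← ENNReal.ofReal_mul (by positivity)]
    apply ENNReal.ofReal_le_ofReal
    have hinv : 1 < y⁻¹ := (one_lt_inv₀ hy0).2 hy1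
    have h2 : (⌊y⁻¹⌋₊ : ℝ) + 1 ≤ 2 * y⁻¹ := by
      have := Nat.floor_le (show 0 ≤ y⁻¹ by positivity)
      linarith
    have h3 : Real.log ((⌊y⁻¹⌋₊ : ℝ) + 1) ≤ ((⌊y⁻¹⌋₊ : ℝ) + 1) ^ (1 / 2 : ℝ) / (1 / 2) :=
      Real.log_le_rpow_div (by positivity) (by norm_num)
    have h4 : ((⌊y⁻¹⌋₊ : ℝ) + 1) ^ (1 / 2 : ℝ) ≤ (2 * y⁻¹) ^ (1 / 2 : ℝ) := by gcongr
    have h5 : (2 * y⁻¹) ^ (1 / 2 : ℝ) = 2 ^ (1 / 2 : ℝ) * y ^ (-(1 / 2) : ℝ) := by
      rw [Real.mul_rpow (by norm_num) (by positivity), Real.inv_rpow hy0.le, Real.rpow_neg hy0.le]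
    have h6 : (2 : ℝ) ^ (1 / 2 : ℝ) ≤ 2 := by
      calc (2 : ℝ) ^ (1 / 2 : ℝ) ≤ 2 ^ (1 : ℝ) :=
            Real.rpow_le_rpow_of_exponent_le (by norm_num) (by norm_num)
        _ = 2 := Real.rpow_one _
    have h7 : 0 < y ^ (-(1 / 2) : ℝ) := by positivity
    have h8 : 1 / (1 + y) ≤ 1 := by
      rw [div_le_one (by positivity)]
      linarith
    have h9 : 0 ≤ Real.log ((⌊y⁻¹⌋₊ : ℝ) + 1) := Real.log_nonneg (by
      have : (0 : ℝ) ≤ ⌊y⁻¹⌋₊ := by positivity
      linarith)
    calc 1 / (1 + y) * Real.log ((⌊y⁻¹⌋₊ : ℝ) + 1) ≤ 1 * Real.log ((⌊y⁻¹⌋₊ : ℝ) + 1) := by gcongr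
      _ ≤ (2 * y ^ (-(1 / 2) : ℝ)) / (1 / 2) := by
        rw [one_mul]
        refine h3.trans ?_
        gcongr
        rw [h5] at h4
        refine h4.trans ?_
        gcongr
      _ = _ := by ring
  refine ne_top_of_le_ne_top ?_ h1
  apply ENNReal.mul_ne_top
  · exact ENNReal.inv_ne_top.2 log2_ne
  · have hint : IntegrableOn (fun y : ℝ => 4 * y ^ (-(1 / 2) : ℝ)) (Ioo 0 1) := by
      have := (intervalIntegral.intervalIntegrable_rpow' (a := 0) (b := 1) (r := -(1/2))
        (by norm_num)).const_mul 4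
      rw [intervalIntegrable_iff_integrableOn_Ioo_of_le zero_le_one] at this
      exact this
    exact hint.lintegral_lt_top.ne

/-- the points with a large denominator -/
def VV (T m : ℕ) : Set ℝ :=
  {y | Irrational y ∧ y ∈ Ioo (0 : ℝ) 1 ∧ 2 ^ (T * m) < Q (pre (dig y) m)}

theorem vol_VV {η : ℝ} (hη : 0 < η) : ∃ T : ℕ, 1 ≤ T ∧ ∀ m, volume (VV T m) ≤ ENNReal.ofReal η := by
  set K := ∫⁻ y, HH y ∂gam with hK
  have hKt := HH_fin
  rw [← hK] at hKt
  obtain ⟨T, hT⟩ : ∃ T : ℕ, 2 * K.toReal / (η * Real.log 2) < T := exists_nat_gt _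
  have hl2 : 0 < Real.log 2 := Real.log_pos (by norm_num)
  refine ⟨T + 1, by omega, fun m => ?_⟩
  rcases Nat.eq_zero_or_pos m with rfl | hm
  · have : VV (T + 1) 0 = ∅ := by
      rw [eq_empty_iff_forall_notMem]
      rintro y ⟨-, -, h⟩
      simp [pre, Q, cq] at h
    rw [this, measure_empty]
    exact zero_le
  · have hm' : (0 : ℝ) < m := by exact_mod_cast hm
    set F : ℝ → ℝ≥0∞ := fun y => ∑ i ∈ Finset.range m, HH (gauss^[i] y) with hF
    have hFm : Measurable F := Finset.measurable_fun_sum _ fun i _ =>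
      measurable_HH.comp (measurable_gauss_iterate i)
    have hFi : ∫⁻ y, F y ∂gam = m * K := by
      show ∫⁻ y, ∑ i ∈ Finset.range m, HH (gauss^[i] y) ∂gam = _
      rw [lintegral_finsetSum (f := fun i y => HH (gauss^[i] y)) _
        fun i _ => measurable_HH.comp (measurable_gauss_iterate i)]
      have : ∀ i ∈ Finset.range m, ∫⁻ y, HH (gauss^[i] y) ∂gam = K := fun i _ =>
        (mp.iterate i).lintegral_comp measurable_HH
      rw [Finset.sum_congr rfl this, Finset.sum_const, Finset.card_range, nsmul_eq_mul]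
    set c : ℝ := (T + 1) * m * Real.log 2 with hc
    have hc0 : 0 < c := by positivity
    have hsub : VV (T + 1) m ⊆ {y | ENNReal.ofReal c ≤ F y} ∩ Ioo 0 1 := by
      rintro y ⟨hi, hy, hQ⟩
      refine ⟨?_, hy⟩
      obtain ⟨h1, -⟩ := dig_props hi hy
      have h2 := Q_le_prod (dig y) h1 m
      have h3 : (2 : ℝ) ^ ((T + 1) * m) ≤ ∏ i ∈ Finset.range m, ((dig y i : ℝ) + 1) := by
        have : 2 ^ ((T + 1) * m) ≤ ∏ i ∈ Finset.range m, (dig y i + 1) := (hQ.le).trans h2
        exact_mod_cast this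
      have h4 := Real.log_le_log (by positivity) h3
      rw [Real.log_pow, Real.log_prod (fun i _ => by positivity)] at h4
      push_cast at h4
      have h5 : F y = ENNReal.ofReal (∑ i ∈ Finset.range m, Real.log ((dig y i : ℝ) + 1)) := by
        rw [ENNReal.ofReal_sum_of_nonneg]
        · rfl
        · intro i _
          apply Real.log_nonneg
          have : (0 : ℝ) ≤ dig y i := by positivity
          linarith
      show ENNReal.ofReal c ≤ F y
      rw [h5]
      exact ENNReal.ofReal_le_ofReal h4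
    have hmk := mul_meas_ge_le_lintegral (μ := gam) hFm (ENNReal.ofReal c)
    rw [hFi] at hmk
    have hg : gam {y | ENNReal.ofReal c ≤ F y} ≤ ENNReal.ofReal (η / 2) := by
      have h6 : gam {y | ENNReal.ofReal c ≤ F y} ≤ (m * K) / ENNReal.ofReal c := by
        rw [ENNReal.le_div_iff_mul_le (Or.inl (ENNReal.ofReal_pos.2 hc0).ne')
          (Or.inl ENNReal.ofReal_ne_top), mul_comm]
        exact hmk
      refine h6.trans ?_
      have h7 : (m : ℝ≥0∞) * K = ENNReal.ofReal (m * K.toReal) := by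
        rw [ENNReal.ofReal_mul (by positivity), ENNReal.ofReal_natCast, ENNReal.ofReal_toReal hKt]
      rw [h7, ← ENNReal.ofReal_div_of_pos hc0]
      apply ENNReal.ofReal_le_ofReal
      rw [div_le_iff₀ hc0, hc]
      rw [div_lt_iff₀ (by positivity)] at hT
      nlinarith [mul_pos hm' (mul_pos hη hl2)]
    calc volume (VV (T + 1) m) ≤ volume ({y | ENNReal.ofReal c ≤ F y} ∩ Ioo 0 1) :=
          measure_mono hsub
      _ ≤ 2 * gam {y | ENNReal.ofReal c ≤ F y} :=
          vol_le_gam (measurableSet_le measurable_const hFm)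
      _ ≤ 2 * ENNReal.ofReal (η / 2) := by gcongr
      _ = ENNReal.ofReal η := by
          rw [show (2 : ℝ≥0∞) = ENNReal.ofReal 2 by simp, ← ENNReal.ofReal_mul (by norm_num)]
          congr 1
          ring

end Pool.Agent.X886.CFN
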