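import Pool.Agent.X886.CFN.Bad

/-!
# Fractions with a given denominator and typical continued fraction expansion
-/

set_option autoImplicit false

open Filter Set MeasureTheory
open scoped Topology ENNReal

namespace Pool.Agent.X886.CFN

open Pool.Agent.R357.CF Pool.Agent.W811.Stu Pool.Agent.W174.Stu

/-- deviation of the number of occurrences -/
noncomputable def EE (s w : List ℕ) : ℝ := (occ s w : ℝ) - gs s * w.length

theorem EE_append {s : List ℕ} (hs : s ≠ []) (v w : List ℕ) :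
    |EE s (v ++ w) - EE s v - EE s w| ≤ s.length := by
  obtain ⟨h1, h2⟩ := occ_append hs v w
  have h1' : (occ s v : ℝ) + occ s w ≤ occ s (v ++ w) := by exact_mod_cast h1
  have h2' : (occ s (v ++ w) : ℝ) ≤ occ s v + occ s w + s.length := by exact_mod_cast h2
  unfold EE
  rw [List.length_append]
  push_cast
  have e : (occ s (v ++ w) : ℝ) - gs s * (v.length + w.length) - (occ s v - gs s * v.length) -
      (occ s w - gs s * w.length) = occ s (v ++ w) - occ s v - occ s w := by ring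
  rw [e, abs_le]
  have : (0 : ℝ) ≤ s.length := by positivity
  constructor <;> linarith

theorem EE_le {s : List ℕ} (hg : Good s) (w : List ℕ) : |EE s w| ≤ w.length := by
  have h1 : (occ s w : ℝ) ≤ w.length := by exact_mod_cast occ_le s w
  have h2 := gs_nonneg s
  have h3 := gs_le_one hg
  have h4 : (0 : ℝ) ≤ occ s w := by positivity
  have h5 : (0 : ℝ) ≤ w.length := by positivity
  unfold EE
  rw [abs_le]
  constructor <;> nlinarith

theorem EE_reverse {s : List ℕ} (hg : Good s) (hs : s ≠ []) (w : List ℕ) :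
    EE s.reverse w.reverse = EE s w := by
  unfold EE
  rw [occ_reverse hs, gs_reverse hg, List.length_reverse]

theorem typ_iff (S : Finset (List ℕ)) (ε : ℝ) (C : ℕ) (w : List ℕ) :
    Typ S ε C w ↔ ∀ s ∈ S, |EE s w| ≤ ε * w.length + C := Iff.rfl

theorem half {P : ℕ} (hP : 2 ≤ P) {a b : List ℕ} (hw : Good (a ++ b)) (hQ : Q (a ++ b) ≤ P)
    (ha : ¬ 2 * Q a ^ 2 ≤ P) : 2 * Q (b.drop 2) ^ 2 ≤ P := by
  have hb : Good b := Good.right hw
  rcases Nat.lt_or_ge b.length 2 with h | h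
  · have : b.drop 2 = [] := List.drop_eq_nil_of_le (by omega)
    rw [this]
    simpa [Q, cq] using hP
  · have h1 := Q_drop_two hb h
    have h2 := (Q_mul_le a b).trans hQ
    rw [not_le] at ha
    set q := Q (b.drop 2)
    have h3 : Q a * (2 * q) ≤ P := (Nat.mul_le_mul_left _ h1).trans h2
    have h4 : (Q a * (2 * q)) ^ 2 ≤ P ^ 2 := Nat.pow_le_pow_left h3 2
    by_contra h5
    rw [not_le] at h5
    have h6 : P * P < (2 * Q a ^ 2) * (2 * q ^ 2) := Nat.mul_lt_mul'' ha h5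
    nlinarith

theorem good_word (S S2 : Finset (List ℕ)) (hS : Pat S) (hSS : ∀ s ∈ S, s ∈ S2 ∧ s.reverse ∈ S2)
    {ε ε2 : ℝ} (hε : 0 < ε) {C0 T m M2 P L : ℕ} {u v : List ℕ} (hu : Good u) (hv : Good v)
    (hP2 : 2 ≤ P) (hQP : Q (u ++ v) ≤ P) (hL : ∀ s ∈ S, s.length ≤ L)
    (h1 : ∀ v' r, v = v' ++ r → 2 * Q (u ++ v') ^ 2 ≤ P → Typ S ε C0 v')
    (h2 : m ≤ (u ++ v).length ∧ Q ((u ++ v).take m) ≤ 2 ^ (T * m))
    (h2R : 2 * (2 ^ (T * m)) ^ 2 ≤ P)
    (h3 : ∀ v' r, u ++ v = v' ++ r → 2 * Q v' ^ 2 ≤ P → Typ S2 ε2 M2 v')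
    (h4 : ∀ v' r, (u ++ v).reverse = v' ++ r → 2 * Q v' ^ 2 ≤ P → Typ S2 ε2 M2 v')
    (hPm : P < 2 ^ (2 * T * (m + 1) + 1)) (hm : 2 ≤ m) (hT : 1 ≤ T)
    (hε2 : ε2 = ε / (48 * T))
    (hbig : 3 * (M2 : ℝ) + 5 + u.length + 5 * L + ε * u.length ≤ ε / 2 * m) :
    ∀ v' r, v = v' ++ r → Typ S ε C0 v' := by
  classical
  intro v' r hvr
  by_cases hQ : 2 * Q (u ++ v') ^ 2 ≤ P
  · exact h1 v' r hvr hQ
  set w := u ++ v with hw
  have hwg : Good w := hu.append hv
  have hwa : w = (u ++ v') ++ r := by rw [hw, hvr, List.append_assoc]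
  -- the first prefix with a large denominator
  have hex : ∃ j, ¬ 2 * Q (w.take j) ^ 2 ≤ P := ⟨(u ++ v').length, by
    rw [hwa, List.take_left]
    exact hQ⟩
  set j := Nat.find hex with hj
  have hj1 := Nat.find_spec hex
  rw [← hj] at hj1
  have hj2 : ∀ i < j, 2 * Q (w.take i) ^ 2 ≤ P := fun i hi => by
    have := Nat.find_min hex hi
    rwa [not_not] at this
  have hjle : j ≤ (u ++ v').length := Nat.find_min' hex (by
    rw [hwa, List.take_left]
    exact hQ)
  have hmj : m < j := by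
    by_contra hle
    rw [not_lt] at hle
    apply hj1
    calc 2 * Q (w.take j) ^ 2 ≤ 2 * Q (w.take m) ^ 2 := by
          gcongr
          exact Q_take_mono hwg hle
      _ ≤ 2 * (2 ^ (T * m)) ^ 2 := by
          gcongr
          exact h2.2
      _ ≤ P := h2R
  set g := w.take (j - 1) with hg
  set g1 := w.drop (j + 2) with hg1
  set g2 := r.drop 2 with hg2
  set mid1 := (w.drop (j - 1)).take 3 with hmid1
  set mid2 := r.take 2 with hmid2
  have dec1 : w = g ++ (mid1 ++ g1) := by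
    rw [hmid1, hg1, show j + 2 = (j - 1) + 3 by omega, ← List.drop_drop, List.take_append_drop,
      hg, List.take_append_drop]
  have dec2 : w = u ++ (v' ++ (mid2 ++ g2)) := by
    rw [hmid2, hg2, List.take_append_drop, hw, hvr]
  have q1 : 2 * Q g ^ 2 ≤ P := hj2 (j - 1) (by omega)
  have q2 : 2 * Q g1 ^ 2 ≤ P := by
    have e : w = w.take j ++ w.drop j := (List.take_append_drop j w).symm
    have := half hP2 (a := w.take j) (b := w.drop j) (by rw [← e]; exact hwg)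
      (by rw [← e]; exact hQP) hj1
    rwa [List.drop_drop] at this
  have q3 : 2 * Q g2 ^ 2 ≤ P :=
    half hP2 (a := u ++ v') (b := r) (by rw [← hwa]; exact hwg) (by rw [← hwa]; exact hQP) hQ
  have t1 := h3 g (mid1 ++ g1) dec1 q1
  have t2 := h4 g1.reverse (g ++ mid1).reverse (by
    rw [← List.reverse_append, List.append_assoc, ← dec1]) (by rw [Q_reverse]; exact q2)
  have t3 := h4 g2.reverse (u ++ v' ++ mid2).reverse (by
    rw [← List.reverse_append, List.append_assoc, List.append_assoc, ← dec2])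
    (by rw [Q_reverse]; exact q3)
  have hlen : (w.length : ℝ) ≤ 8 * T * m := by
    have hg := (Q_grow hwg).1
    have a1 : 2 ^ w.length < 2 ^ (4 * T * (m + 1) + 3) := by
      calc 2 ^ w.length ≤ 2 * Q w ^ 2 := hg
        _ ≤ 2 * P ^ 2 := by gcongr
        _ < 2 * (2 ^ (2 * T * (m + 1) + 1)) ^ 2 := by gcongr
        _ = 2 ^ (4 * T * (m + 1) + 3) := by
          rw [← pow_mul, ← pow_succ']
          congr 1
          ring
    have a2 := (Nat.pow_lt_pow_iff_right (by norm_num : 1 < 2)).1 a1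
    have a3 : w.length ≤ 8 * T * m := by nlinarith
    exact_mod_cast a3
  intro s hs
  obtain ⟨hsg, hsn⟩ := hS s hs
  obtain ⟨hs2, hs2r⟩ := hSS s hs
  have b1 : |EE s g| ≤ ε2 * g.length + M2 := t1 s hs2
  have b2 : |EE s g1| ≤ ε2 * g1.length + M2 := by
    have : |EE s.reverse g1.reverse| ≤ ε2 * g1.reverse.length + M2 := t2 _ hs2r
    rwa [EE_reverse hsg hsn, List.length_reverse] at this
  have b3 : |EE s g2| ≤ ε2 * g2.length + M2 := by
    have : |EE s.reverse g2.reverse| ≤ ε2 * g2.reverse.length + M2 := t3 _ hs2r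
    rwa [EE_reverse hsg hsn, List.length_reverse] at this
  have hsL : (s.length : ℝ) ≤ L := by exact_mod_cast hL s hs
  have c1 := EE_append hsn g (mid1 ++ g1)
  rw [← dec1] at c1
  have c2 := EE_append hsn mid1 g1
  have c3 := EE_le hsg mid1
  have c4 : (mid1.length : ℝ) ≤ 3 := by
    have : mid1.length ≤ 3 := by rw [hmid1, List.length_take]; omega
    exact_mod_cast this
  have d1 := EE_append hsn u (v' ++ (mid2 ++ g2))
  rw [← dec2] at d1
  have d2 := EE_append hsn v' (mid2 ++ g2)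
  have d3 := EE_append hsn mid2 g2
  have d4 := EE_le hsg mid2
  have d5 : (mid2.length : ℝ) ≤ 2 := by
    have : mid2.length ≤ 2 := by rw [hmid2, List.length_take]; omega
    exact_mod_cast this
  have d6 := EE_le hsg u
  have l1 : (g.length : ℝ) ≤ w.length := by
    have : g.length ≤ w.length := by rw [dec1]; simp
    exact_mod_cast this
  have l2 : (g1.length : ℝ) ≤ w.length := by
    have : g1.length ≤ w.length := by rw [dec1]; simp; omega
    exact_mod_cast this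
  have l3 : (g2.length : ℝ) ≤ w.length := by
    have : g2.length ≤ w.length := by rw [dec2]; simp; omega
    exact_mod_cast this
  have hT' : (1 : ℝ) ≤ T := by exact_mod_cast hT
  have hε20 : 0 < ε2 := by rw [hε2]; positivity
  have hsum : ε2 * g.length + ε2 * g1.length + ε2 * g2.length ≤ ε / 2 * m := by
    have : ε2 * g.length + ε2 * g1.length + ε2 * g2.length ≤ ε2 * (3 * (8 * T * m)) := by
      have a1 := mul_le_mul_of_nonneg_left (l1.trans hlen) hε20.le
      have a2 := mul_le_mul_of_nonneg_left (l2.trans hlen) hε20.le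
      have a3 := mul_le_mul_of_nonneg_left (l3.trans hlen) hε20.le
      linarith
    refine this.trans (le_of_eq ?_)
    rw [hε2]
    field_simp
    ring
  have hv' : (m : ℝ) ≤ v'.length + u.length := by
    have : m ≤ v'.length + u.length := by
      rw [List.length_append] at hjle
      omega
    exact_mod_cast this
  have hfin : |EE s v'| ≤ 5 * L + 5 + u.length + 3 * M2 + ε / 2 * m := by
    rw [abs_le] at *
    constructor <;> linarith [c1.1, c1.2, c2.1, c2.2, c3.1, c3.2, d1.1, d1.2, d2.1, d2.2, d3.1,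
      d3.2, d4.1, d4.2, d6.1, d6.2, b1.1, b1.2, b2.1, b2.2, b3.1, b3.2]
  show |EE s v'| ≤ ε * v'.length + C0
  have hC : (0 : ℝ) ≤ C0 := by positivity
  nlinarith

theorem phi_irr {w : List ℕ} (hw : Good w) {z : ℝ} (hz : Irrational z) : Irrational (phi w z) := by
  induction w with
  | nil => exact hz
  | cons d w ih =>
    have := ih hw.cons.2
    simp only [phi]
    rw [one_div]
    exact (this.natCast_add d).inv

theorem exists_word_rat {z : ℝ} (hz : z ∈ Ioo (0 : ℝ) 1) (hr : ¬ Irrational z) :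
    ∃ w, Good w ∧ w ≠ [] ∧ phi w 0 = z := by
  rw [Irrational, not_not] at hr
  obtain ⟨r, hr⟩ := hr
  have hr0 : 0 < r := by
    have := hz.1; rw [← hr] at this; exact_mod_cast this
  have hr1 : r < 1 := by
    have := hz.2; rw [← hr] at this; exact_mod_cast this
  have h1 : (r.num.toNat : ℤ) = r.num := Int.toNat_of_nonneg (Rat.num_nonneg.2 hr0.le)
  have hnum : 0 < r.num := Rat.num_pos.2 hr0
  have hlt : r.num < r.den := by
    have := Rat.num_lt_denom_iff.2 hr1
    exact this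
  obtain ⟨w, hw, hne, h2⟩ := exists_word r.den r.num.toNat (by omega) (by omega)
  refine ⟨w, hw, hne, ?_⟩
  rw [h2, ← hr]
  have h3 : (r.num.toNat : ℝ) = (r.num : ℝ) := by
    have : ((r.num.toNat : ℤ) : ℝ) = (r.num : ℝ) := by rw [h1]
    rw [← this]
    exact (Int.cast_natCast _).symm
  rw [h3]
  exact (Rat.cast_def r).symm

/-- **Stage lemma.** -/
theorem stage (S : Finset (List ℕ)) (hS : Pat S) {ε : ℝ} (hε : 0 < ε) : ∃ C0 : ℕ,
    ∀ u : List ℕ, Good u → ∀ Pn : ℕ → ℕ, 1 ≤ Pn 0 → (∀ n, 2 * Pn n ≤ Pn (n + 1)) →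
    ∀ n0 L0 : ℕ, ∃ n, n0 ≤ n ∧ ∃ v, Good v ∧ L0 ≤ v.length ∧ Q (u ++ v) ∣ Pn n ∧
      ∀ v' r, v = v' ++ r → Typ S ε C0 v' := by
  classical
  obtain ⟨C0, hC0⟩ := vol_UU S hS hε (η := 1 / 100) (by norm_num)
  refine ⟨C0, fun u hu Pn hP0 hPn n0 L0 => ?_⟩
  set S2 : Finset (List ℕ) := S ∪ S.image List.reverse with hS2
  have hS2p : Pat S2 := by
    intro s hs
    rw [hS2, Finset.mem_union, Finset.mem_image] at hs
    rcases hs with hs | ⟨t, ht, rfl⟩
    · exact hS s hs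
    · exact ⟨Good.reverse (hS t ht).1, by simpa using (hS t ht).2⟩
  have hSS : ∀ s ∈ S, s ∈ S2 ∧ s.reverse ∈ S2 := fun s hs =>
    ⟨Finset.mem_union_left _ hs, Finset.mem_union_right _ (Finset.mem_image_of_mem _ hs)⟩
  have hQu : (1 : ℝ) ≤ Q u := by exact_mod_cast Q_pos hu
  have hQu' : (Q' u : ℝ) ≤ Q u := by exact_mod_cast Q'_le hu
  have hQu0 : (0 : ℝ) ≤ Q' u := by positivity
  set lam : ℝ := 1 / ((Q u : ℝ) * (Q u + Q' u)) with hlam
  have hlam0 : 0 < lam := by positivity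
  have hlamQ : 1 / (Q u : ℝ) ^ 2 ≤ 2 * lam := by
    rw [hlam, mul_one_div, div_le_div_iff₀ (by positivity) (by positivity)]
    nlinarith
  obtain ⟨T, hT, hVV⟩ := vol_VV (η := lam / 100) (by positivity)
  have hT' : (1 : ℝ) ≤ T := by exact_mod_cast hT
  set ε2 : ℝ := ε / (48 * T) with hε2
  obtain ⟨M2, hM2⟩ := vol_UU S2 hS2p (ε := ε2) (by positivity) (η := lam / 100) (by positivity)
  set L : ℕ := S.sup List.length with hL
  obtain ⟨m0, hm0⟩ : ∃ m0 : ℕ, (3 * (M2 : ℝ) + 5 + u.length + 5 * L + ε * u.length) / (ε / 2) < m0 :=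
    exists_nat_gt _
  obtain ⟨n1, hn1⟩ : ∃ n1 : ℕ, 2 / lam < n1 := exists_nat_gt _
  set m1 : ℕ := m0 + 2 + u.length + L0 with hm1
  set n : ℕ := n0 + n1 + (2 * T * m1 + 1) with hn
  set P := Pn n with hPdef
  have hPn2 : 2 ^ n ≤ P := by
    have : ∀ k, 2 ^ k ≤ Pn k := by
      intro k
      induction k with
      | zero => simpa using hP0
      | succ k ih =>
        rw [pow_succ]
        linarith [hPn k]
    exact this n
  have hnP : n < P := Nat.lt_two_pow_self.trans_le hPn2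
  have hP : 0 < P := by omega
  have hP' : (0 : ℝ) < P := by exact_mod_cast hP
  have hlog : n ≤ Nat.log 2 P := Nat.le_log_of_pow_le (by norm_num) hPn2
  set m : ℕ := (Nat.log 2 P - 1) / (2 * T) with hmdef
  have hmm1 : m1 ≤ m := by
    rw [hmdef, Nat.le_div_iff_mul_le (by omega)]
    have : m1 * (2 * T) = 2 * T * m1 := by ring
    omega
  have hlog1 : m * (2 * T) ≤ Nat.log 2 P - 1 := Nat.div_mul_le_self _ _
  have hlog2 : Nat.log 2 P - 1 < (2 * T) * (m + 1) := Nat.lt_mul_div_succ _ (by omega)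
  have hPR : 2 * (2 ^ (T * m)) ^ 2 ≤ P := by
    calc 2 * (2 ^ (T * m)) ^ 2 = 2 ^ (m * (2 * T) + 1) := by
          rw [← pow_mul, ← pow_succ']
          congr 1
          ring
      _ ≤ 2 ^ (Nat.log 2 P) := Nat.pow_le_pow_right (by norm_num) (by omega)
      _ ≤ P := Nat.pow_log_le_self 2 (by omega)
  have hPm : P < 2 ^ (2 * T * (m + 1) + 1) := by
    calc P < 2 ^ (Nat.log 2 P + 1) := Nat.lt_pow_succ_log_self (by norm_num) P
      _ ≤ 2 ^ (2 * T * (m + 1) + 1) := Nat.pow_le_pow_right (by norm_num) (by omega)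
  have hbig : 3 * (M2 : ℝ) + 5 + u.length + 5 * L + ε * u.length ≤ ε / 2 * m := by
    rw [div_lt_iff₀ (by positivity)] at hm0
    have : (m0 : ℝ) ≤ m := by exact_mod_cast (by omega : m0 ≤ m)
    nlinarith
  -- the candidates
  set α := min (phi u 0) (phi u 1) with hα
  set β := max (phi u 0) (phi u 1) with hβ
  have hαβ : β - α = lam := by
    rw [hα, hβ, seg_len hu one_pos, hlam, mul_one]
  have h0 := phi_mem_Icc hu (z := 0) ⟨le_rfl, zero_le_one⟩
  have h1 := phi_mem_Icc hu (z := 1) ⟨zero_le_one, le_rfl⟩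
  have hα0 : 0 ≤ α := le_min h0.1 h1.1
  have hβ1 : β ≤ 1 := max_le h0.2 h1.2
  set F : Finset ℕ := Finset.Ico (⌊α * P⌋₊ + 1) ⌈β * P⌉₊ with hF
  have hFmem : ∀ A ∈ F, α < (A : ℝ) / P ∧ (A : ℝ) / P < β := by
    intro A hA
    rw [hF, Finset.mem_Ico] at hA
    constructor
    · rw [lt_div_iff₀ hP']
      calc α * P < ⌊α * P⌋₊ + 1 := Nat.lt_floor_add_one _
        _ ≤ A := by exact_mod_cast hA.1
    · rw [div_lt_iff₀ hP']
      exact Nat.lt_ceil.1 hA.2
  have hFcard : lam * P - 1 ≤ F.card := by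
    rw [hF, Nat.card_Ico]
    have a1 : (⌊α * P⌋₊ : ℝ) ≤ α * P := Nat.floor_le (by positivity)
    have a2 : β * P ≤ ⌈β * P⌉₊ := Nat.le_ceil _
    have a3 : ((⌈β * P⌉₊ : ℕ) : ℝ) - (⌊α * P⌋₊ + 1 : ℕ) ≤ ((⌈β * P⌉₊ - (⌊α * P⌋₊ + 1) : ℕ) : ℝ) := by
      rw [sub_le_iff_le_add]
      exact_mod_cast (by omega : ⌈β * P⌉₊ ≤ ⌈β * P⌉₊ - (⌊α * P⌋₊ + 1) + (⌊α * P⌋₊ + 1))
    push_cast at a3
    rw [← hαβ]
    linarith
  have hV : ∀ A : ℕ, ∃ v : List ℕ, A ∈ F → Good v ∧ phi (u ++ v) 0 = (A : ℝ) / P := by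
    intro A
    by_cases hA : A ∈ F
    · obtain ⟨a1, a2⟩ := hFmem A hA
      have a3 : (A : ℝ) / P ∈ phi u '' Ioo 0 1 := by
        rw [image_phi hu one_pos le_rfl]
        exact ⟨a1, a2⟩
      obtain ⟨z, hz, hzA⟩ := a3
      have hzr : ¬ Irrational z := by
        intro hi
        have := phi_irr hu hi
        rw [hzA] at this
        apply this
        exact ⟨(A : ℚ) / P, by push_cast; rfl⟩
      obtain ⟨v, hv, -, hv2⟩ := exists_word_rat hz hzr
      exact ⟨v, fun _ => ⟨hv, by rw [phi_append, hv2, hzA]⟩⟩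
    · exact ⟨[], fun h => absurd h hA⟩
  choose V hV using hV
  have hW : ∀ A ∈ F, Good (u ++ V A) ∧ phi (u ++ V A) 0 = (A : ℝ) / P := fun A hA =>
    ⟨hu.append (hV A hA).1, (hV A hA).2⟩
  -- the bad ones
  set B1 := F.filter fun A => ∃ v r, V A = v ++ r ∧ 2 * Q (u ++ v) ^ 2 ≤ P ∧ ¬ Typ S ε C0 v
    with hB1
  set B2 := F.filter fun A => ¬ (m ≤ (u ++ V A).length ∧ Q ((u ++ V A).take m) ≤ 2 ^ (T * m))
    with hB2
  set B3 := F.filter fun A => ∃ v r, u ++ V A = v ++ r ∧ 2 * Q v ^ 2 ≤ P ∧ ¬ Typ S2 ε2 M2 v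
    with hB3
  set B4 := F.filter fun A => ((u ++ V A).length % 2 = 0 ∧
    ∃ v r, (u ++ V A).reverse = v ++ r ∧ 2 * Q v ^ 2 ≤ P ∧ ¬ Typ S2 ε2 M2 v) with hB4
  set B5 := F.filter fun A => ((u ++ V A).length % 2 = 1 ∧
    ∃ v r, (u ++ V A).reverse = v ++ r ∧ 2 * Q v ^ 2 ≤ P ∧ ¬ Typ S2 ε2 M2 v) with hB5
  have c1 : (B1.card : ℝ) ≤ 2 * P * (1 / (Q u : ℝ) ^ 2 * (1 / 100)) :=
    cntTyp1 P hP hu B1 V (fun A hA => hV A (Finset.mem_of_mem_filter A hA)) S ε C0
      (fun A hA => (Finset.mem_filter.1 hA).2) _ (by norm_num) hC0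
  have c2 : (B2.card : ℝ) ≤ 2 * P * (lam / 100) :=
    cntVV P hP B2 (fun A => u ++ V A) (fun A hA => hW A (Finset.mem_of_mem_filter A hA)) T m hPR
      (fun A hA => (Finset.mem_filter.1 hA).2) _ (by positivity) (hVV m)
  have c3 : (B3.card : ℝ) ≤ 2 * P * (lam / 100) :=
    cntTyp P hP B3 (fun A => u ++ V A) (fun A hA => hW A (Finset.mem_of_mem_filter A hA)) S2 ε2 M2
      (fun A hA => (Finset.mem_filter.1 hA).2) _ (by positivity) hM2
  have hltP : ∀ A ∈ F, A < P := by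
    intro A hA
    have := (hFmem A hA).2.trans_le hβ1
    rw [div_lt_one hP'] at this
    exact_mod_cast this
  have c4 : (B4.card : ℝ) ≤ 2 * P * (lam / 100) :=
    cntRev P hP B4 (fun A => u ++ V A) (fun A hA => hW A (Finset.mem_of_mem_filter A hA))
      (fun A hA => hltP A (Finset.mem_of_mem_filter A hA)) 0
      (fun A hA => (Finset.mem_filter.1 hA).2.1) S2 ε2 M2
      (fun A hA => (Finset.mem_filter.1 hA).2.2) _ (by positivity) hM2
  have c5 : (B5.card : ℝ) ≤ 2 * P * (lam / 100) :=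
    cntRev P hP B5 (fun A => u ++ V A) (fun A hA => hW A (Finset.mem_of_mem_filter A hA))
      (fun A hA => hltP A (Finset.mem_of_mem_filter A hA)) 1
      (fun A hA => (Finset.mem_filter.1 hA).2.1) S2 ε2 M2
      (fun A hA => (Finset.mem_filter.1 hA).2.2) _ (by positivity) hM2
  have hgood : ∃ A ∈ F, A ∉ B1 ∧ A ∉ B2 ∧ A ∉ B3 ∧ A ∉ B4 ∧ A ∉ B5 := by
    by_contra hno
    push Not at hno
    have hsub : F ⊆ B1 ∪ B2 ∪ B3 ∪ B4 ∪ B5 := by
      intro A hA
      have := hno A hA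
      simp only [Finset.mem_union]
      tauto
    have hcard : (F.card : ℝ) ≤ B1.card + B2.card + B3.card + B4.card + B5.card := by
      have a1 := Finset.card_le_card hsub
      have a2 := Finset.card_union_le (B1 ∪ B2 ∪ B3 ∪ B4) B5
      have a3 := Finset.card_union_le (B1 ∪ B2 ∪ B3) B4
      have a4 := Finset.card_union_le (B1 ∪ B2) B3
      have a5 := Finset.card_union_le B1 B2
      exact_mod_cast (by omega :
        F.card ≤ B1.card + B2.card + B3.card + B4.card + B5.card)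
    have hPlam : 2 < lam * P := by
      rw [div_lt_iff₀ hlam0] at hn1
      have : (n1 : ℝ) ≤ P := by exact_mod_cast (by omega : n1 ≤ P)
      nlinarith
    have c1' : (B1.card : ℝ) ≤ 2 * P * (2 * lam * (1 / 100)) := by
      refine c1.trans ?_
      gcongr
    nlinarith
  obtain ⟨A, hA, n1', n2, n3, n4, n5⟩ := hgood
  obtain ⟨hvg, hphi⟩ := hV A hA
  have hdvd := (dvd_of_phi (hW A hA).1 hP (hW A hA).2).1
  have g1 : ∀ v' r, V A = v' ++ r → 2 * Q (u ++ v') ^ 2 ≤ P → Typ S ε C0 v' := by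
    intro v' r e1 e2
    by_contra e3
    exact n1' (Finset.mem_filter.2 ⟨hA, v', r, e1, e2, e3⟩)
  have g2 : m ≤ (u ++ V A).length ∧ Q ((u ++ V A).take m) ≤ 2 ^ (T * m) := by
    by_contra e3
    exact n2 (Finset.mem_filter.2 ⟨hA, e3⟩)
  have g3 : ∀ v' r, u ++ V A = v' ++ r → 2 * Q v' ^ 2 ≤ P → Typ S2 ε2 M2 v' := by
    intro v' r e1 e2
    by_contra e3
    exact n3 (Finset.mem_filter.2 ⟨hA, v', r, e1, e2, e3⟩)
  have g4 : ∀ v' r, (u ++ V A).reverse = v' ++ r → 2 * Q v' ^ 2 ≤ P → Typ S2 ε2 M2 v' := by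
    intro v' r e1 e2
    by_contra e3
    rcases Nat.mod_two_eq_zero_or_one (u ++ V A).length with h | h
    · exact n4 (Finset.mem_filter.2 ⟨hA, h, v', r, e1, e2, e3⟩)
    · exact n5 (Finset.mem_filter.2 ⟨hA, h, v', r, e1, e2, e3⟩)
  refine ⟨n, by omega, V A, hvg, ?_, hdvd, ?_⟩
  · have := g2.1
    rw [List.length_append] at this
    omega
  · exact good_word S S2 hS hSS hε hu hvg (by omega) (Nat.le_of_dvd hP hdvd)
      (fun s hs => Finset.le_sup (f := List.length) hs) g1 g2 hPR g3 g4 hPm (by omega) hT hε2 hbig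

end Pool.Agent.X886.CFN
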