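import Pool.Agent.R357.CF.Seq

/-!
# Words, continuants and occurrences of patterns
-/

set_option autoImplicit false

namespace Pool.Agent.X886.CFN

open Pool.Agent.R357.CF

/-- the numerator of a word -/
def Pw (w : List ℕ) : ℕ := (cq w).1

/-- the second numerator of a word -/
def Pw' (w : List ℕ) : ℕ := (cq w).2.1

theorem cq_reverse (w : List ℕ) :
    cq w.reverse = ((cq w).2.2.2, (cq w).2.1, (cq w).2.2.1, (cq w).1) := by
  induction w with
  | nil => rfl
  | cons d w ih =>
    rw [List.reverse_cons, cq_append, ih]
    simp only [cq]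

theorem Q_reverse (w : List ℕ) : Q w.reverse = Q w := by
  unfold Q
  rw [cq_reverse]

theorem Q'_reverse (w : List ℕ) : Q' w.reverse = Pw w := by
  unfold Q' Pw
  rw [cq_reverse]

theorem Pw_reverse (w : List ℕ) : Pw w.reverse = Q' w := by
  unfold Q' Pw
  rw [cq_reverse]

theorem Pw'_reverse (w : List ℕ) : Pw' w.reverse = Pw' w := by
  unfold Pw'
  rw [cq_reverse]

theorem append_formula (v w : List ℕ) : Pw (v ++ w) = Pw v * Q w + Pw' v * Pw w ∧
    Q (v ++ w) = Q v * Q w + Q' v * Pw w := by
  induction v with
  | nil => simp [Pw, Pw', Q, Q', cq]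
  | cons d v ih =>
    obtain ⟨h1, h2⟩ := ih
    have e1 : Pw (d :: v ++ w) = Q (v ++ w) := rfl
    have e2 : Q (d :: v ++ w) = d * Q (v ++ w) + Pw (v ++ w) := rfl
    have e3 : Pw (d :: v) = Q v := rfl
    have e4 : Pw' (d :: v) = Q' v := rfl
    have e5 : Q (d :: v) = d * Q v + Pw v := rfl
    have e6 : Q' (d :: v) = d * Q' v + Pw' v := rfl
    rw [e1, e2, e3, e4, e5, e6, h1, h2]
    constructor
    · rfl
    · ring

theorem Q_mul_le (v w : List ℕ) : Q v * Q w ≤ Q (v ++ w) := by
  rw [(append_formula v w).2]
  exact Nat.le_add_right _ _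

theorem Good.reverse {w : List ℕ} (h : Good w) : Good w.reverse := fun d hd =>
  h d (List.mem_reverse.1 hd)

theorem Good.left {v w : List ℕ} (h : Good (v ++ w)) : Good v := fun d hd =>
  h d (List.mem_append_left _ hd)

theorem Good.right {v w : List ℕ} (h : Good (v ++ w)) : Good w := fun d hd =>
  h d (List.mem_append_right _ hd)

theorem Q_le_of_append_left {v w : List ℕ} (hw : Good (v ++ w)) : Q v ≤ Q (v ++ w) := by
  have h1 := Q_mul_le v w
  have h2 := Q_pos (Good.right hw)
  nlinarith

theorem Q_drop_two {w : List ℕ} (hw : Good w) (h : 2 ≤ w.length) : 2 * Q (w.drop 2) ≤ Q w := by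
  match w, h with
  | a :: b :: w, _ =>
    have h1 := Q_mul_le [a, b] w
    have ha : 1 ≤ a := hw a (by simp)
    have hb : 1 ≤ b := hw b (by simp)
    have h2 : Q [a, b] = a * b + 1 := by
      simp [Q, cq]
    have h3 : 1 ≤ a * b := Nat.mul_pos ha hb
    have h4 : [a, b] ++ w = a :: b :: w := rfl
    rw [h4, h2] at h1
    show 2 * Q w ≤ _
    nlinarith [Nat.zero_le (Q w)]

theorem phi_zero {w : List ℕ} (hw : Good w) : phi w 0 = (Pw w : ℝ) / Q w := by
  have := (phi_formula hw le_rfl).2
  rw [this]
  simp [Pw]

theorem phi_one {w : List ℕ} (hw : Good w) :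
    phi w 1 = ((Pw w : ℝ) + Pw' w) / ((Q w : ℝ) + Q' w) := by
  have := (phi_formula hw zero_le_one).2
  rw [this]
  simp [Pw, Pw']

theorem detZ (w : List ℕ) : (Pw' w : ℤ) * Q w - Pw w * Q' w = (-1) ^ w.length := by
  have := det (w := w)
  exact_mod_cast this

theorem coprime_QQ' (w : List ℕ) : Nat.Coprime (Q w) (Q' w) := by
  have h := detZ w
  have h1 : IsCoprime (Q w : ℤ) (Q' w : ℤ) := by
    rcases neg_one_pow_eq_or ℤ w.length with h2 | h2
    · exact ⟨Pw' w, -Pw w, by rw [h2] at h; linarith⟩
    · exact ⟨-Pw' w, Pw w, by rw [h2] at h; linarith⟩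
  exact Nat.isCoprime_iff_coprime.1 h1

theorem coprime_PQ (w : List ℕ) : Nat.Coprime (Pw w) (Q w) := by
  have h := detZ w
  have h1 : IsCoprime (Pw w : ℤ) (Q w : ℤ) := by
    rcases neg_one_pow_eq_or ℤ w.length with h2 | h2
    · exact ⟨-Q' w, Pw' w, by rw [h2] at h; linarith⟩
    · exact ⟨Q' w, -Pw' w, by rw [h2] at h; linarith⟩
  exact Nat.isCoprime_iff_coprime.1 h1

/-- rational numbers have finite continued fractions -/
theorem exists_word (q : ℕ) : ∀ p : ℕ, 0 < p → p < q →
    ∃ w : List ℕ, Good w ∧ w ≠ [] ∧ phi w 0 = (p : ℝ) / q := by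
  induction q using Nat.strong_induction_on with
  | _ q ih =>
    intro p hp hpq
    have hp' : (0 : ℝ) < p := by exact_mod_cast hp
    have hq' : (0 : ℝ) < q := by exact_mod_cast (hp.trans hpq)
    have hd : 1 ≤ q / p := (Nat.one_le_div_iff hp).2 hpq.le
    have h1 : (q : ℝ) = (q / p : ℕ) * p + (q % p : ℕ) := by
      exact_mod_cast (Nat.div_add_mod' q p).symm
    have h2 : (q : ℝ) / p = (q / p : ℕ) + ((q % p : ℕ) : ℝ) / p := by
      rw [div_eq_iff hp'.ne', add_mul, div_mul_cancel₀ _ hp'.ne']
      exact h1
    rcases Nat.eq_zero_or_pos (q % p) with h0 | h0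
    · refine ⟨[q / p], good_single hd, by simp, ?_⟩
      rw [h0] at h2
      simp only [Nat.cast_zero, zero_div, add_zero] at h2
      simp only [phi, add_zero]
      rw [← h2, one_div_div]
    · obtain ⟨w, hw, -, hw2⟩ := ih p hpq (q % p) h0 (Nat.mod_lt q hp)
      refine ⟨(q / p) :: w, ?_, by simp, ?_⟩
      · intro d hd'
        rcases List.mem_cons.1 hd' with rfl | h
        · exact hd
        · exact hw d h
      · simp only [phi]
        rw [hw2, ← h2, one_div_div]

/-! ### digits of the values of the inverse branches -/

open Pool.Agent.W811.Stu Pool.Agent.W174.Stu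

theorem dig_zero_phi {d : ℕ} {z : ℝ} (hz : z ∈ Set.Ioo (0 : ℝ) 1) : dig (1 / (d + z)) 0 = d := by
  unfold dig
  rw [Function.iterate_zero, id, one_div, inv_inv]
  rw [Nat.floor_eq_iff (by have := hz.1; positivity)]
  constructor
  · linarith [hz.1]
  · linarith [hz.2]

theorem dig_succ (x : ℝ) (k : ℕ) : dig x (k + 1) = dig (gauss x) k := by
  unfold dig
  rw [Function.iterate_succ_apply]

theorem dig_add (x : ℝ) (n k : ℕ) : dig x (n + k) = dig (gauss^[n] x) k := by
  unfold dig
  rw [← Function.iterate_add_apply, add_comm]

theorem pre_dig_phi {w : List ℕ} (hw : Good w) {z : ℝ} (hz : z ∈ Set.Ioo (0 : ℝ) 1) (n : ℕ) :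
    pre (dig (phi w z)) (w.length + n) = w ++ pre (dig z) n := by
  induction w with
  | nil => simp [phi]
  | cons d w ih =>
    obtain ⟨h1, h2⟩ := hw.cons
    have e : (d :: w).length + n = (w.length + n) + 1 := by simp; ring
    rw [e, pre_succ', List.cons_append]
    have h3 := phi_mem h2 hz
    have h4 : dig (phi (d :: w) z) 0 = d := dig_zero_phi h3
    have h5 : sh (dig (phi (d :: w) z)) 1 = dig (phi w z) := by
      funext k
      simp only [sh]
      rw [add_comm 1 k, dig_succ]
      simp only [phi]
      rw [gauss_one_div h3]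
    rw [h4, h5, ih h2]

/-! ### occurrences -/

/-- the pattern `s` occurs in `w` at the position `n` -/
def At (s w : List ℕ) (n : ℕ) : Prop := ∀ i < s.length, w[n + i]? = s[i]?

open Classical in
/-- the number of occurrences of `s` in `w` -/
noncomputable def occ (s w : List ℕ) : ℕ := ((Finset.range w.length).filter (At s w)).card

theorem At.lt {s w : List ℕ} {n : ℕ} (h : At s w n) (hs : s ≠ []) : n + s.length ≤ w.length := by
  have hl : 0 < s.length := List.length_pos_iff.2 hs
  have h1 := h (s.length - 1) (by omega)
  rw [List.getElem?_eq_getElem (by omega : s.length - 1 < s.length)] at h1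
  have h2 := (List.getElem?_eq_some_iff.1 h1).1
  omega

theorem occ_le (s w : List ℕ) : occ s w ≤ w.length := by
  classical
  unfold occ
  refine (Finset.card_filter_le _ _).trans ?_
  simp

theorem at_append_right (s v w : List ℕ) (n : ℕ) : At s (v ++ w) (v.length + n) ↔ At s w n := by
  unfold At
  refine forall₂_congr fun i _ => ?_
  rw [List.getElem?_append_right (by omega)]
  rw [show v.length + n + i - v.length = n + i by omega]

theorem at_append_left {s v : List ℕ} (w : List ℕ) {n : ℕ} (h : n + s.length ≤ v.length) :
    At s (v ++ w) n ↔ At s v n := by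
  unfold At
  refine forall₂_congr fun i hi => ?_
  rw [List.getElem?_append_left (by omega)]

theorem occ_append {s : List ℕ} (hs : s ≠ []) (v w : List ℕ) :
    occ s v + occ s w ≤ occ s (v ++ w) ∧ occ s (v ++ w) ≤ occ s v + occ s w + s.length := by
  classical
  have hsplit : occ s (v ++ w) =
      ((Finset.range v.length).filter (At s (v ++ w))).card + occ s w := by
    unfold occ
    rw [List.length_append, Finset.range_add, Finset.filter_union, Finset.card_union_of_disjoint]
    · congr 1
      rw [Finset.filter_map, Finset.card_map]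
      congr 1
      ext n
      simp only [Finset.mem_filter, Function.comp, addLeftEmbedding_apply]
      rw [at_append_right]
    · rw [Finset.disjoint_left]
      intro n h1 h2
      rw [Finset.mem_filter] at h1 h2
      have h3 := Finset.mem_range.1 h1.1
      simp only [Finset.mem_map, addLeftEmbedding_apply, Finset.mem_range] at h2
      obtain ⟨⟨k, -, hk⟩, -⟩ := h2
      omega
  rw [hsplit]
  constructor
  · gcongr ?_ + _
    unfold occ
    apply Finset.card_le_card
    intro n hn
    rw [Finset.mem_filter] at hn ⊢
    exact ⟨hn.1, (at_append_left w (hn.2.lt hs)).2 hn.2⟩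
  · have h1 : ((Finset.range v.length).filter (At s (v ++ w))).card ≤ occ s v + s.length := by
      calc ((Finset.range v.length).filter (At s (v ++ w))).card
          ≤ (((Finset.range v.length).filter (At s v)) ∪
            Finset.Ico (v.length - s.length) v.length).card := by
            apply Finset.card_le_card
            intro n hn
            rw [Finset.mem_filter] at hn
            rw [Finset.mem_union]
            have h3 := Finset.mem_range.1 hn.1
            by_cases h : n + s.length ≤ v.length
            · left
              rw [Finset.mem_filter]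
              exact ⟨hn.1, (at_append_left w h).1 hn.2⟩
            · right
              rw [Finset.mem_Ico]
              omega
        _ ≤ occ s v + (Finset.Ico (v.length - s.length) v.length).card := Finset.card_union_le _ _
        _ ≤ _ := by
            rw [Nat.card_Ico]
            omega
    omega

theorem at_reverse {s w : List ℕ} {m : ℕ} (h : m + s.length ≤ w.length) :
    At s.reverse w.reverse m ↔ At s w (w.length - s.length - m) := by
  unfold At
  rw [List.length_reverse]
  constructor
  · intro H i hi
    have h1 := H (s.length - 1 - i) (by omega)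
    rw [List.getElem?_reverse (by omega), List.getElem?_reverse (by omega)] at h1
    rw [show w.length - 1 - (m + (s.length - 1 - i)) = w.length - s.length - m + i by omega,
      show s.length - 1 - (s.length - 1 - i) = i by omega] at h1
    exact h1
  · intro H i hi
    have h1 := H (s.length - 1 - i) (by omega)
    rw [List.getElem?_reverse (by omega), List.getElem?_reverse (by omega)]
    rw [show w.length - 1 - (m + i) = w.length - s.length - m + (s.length - 1 - i) by omega]
    exact h1

theorem occ_reverse {s : List ℕ} (hs : s ≠ []) (w : List ℕ) :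
    occ s.reverse w.reverse = occ s w := by
  classical
  have hs' : s.reverse ≠ [] := by simpa using hs
  unfold occ
  rw [List.length_reverse]
  apply Finset.card_nbij' (fun m => w.length - s.length - m) (fun m => w.length - s.length - m)
  · intro m hm
    simp only [Finset.coe_filter, Finset.mem_range, Set.mem_ofPred_eq] at hm ⊢
    have h1 := hm.2.lt hs'
    rw [List.length_reverse, List.length_reverse] at h1
    have hl : 0 < s.length := List.length_pos_iff.2 hs
    exact ⟨by omega, (at_reverse h1).1 hm.2⟩
  · intro m hm
    simp only [Finset.coe_filter, Finset.mem_range, Set.mem_ofPred_eq] at hm ⊢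
    have h1 := hm.2.lt hs
    have hl : 0 < s.length := List.length_pos_iff.2 hs
    refine ⟨by omega, (at_reverse (by omega)).2 ?_⟩
    rw [show w.length - s.length - (w.length - s.length - m) = m by omega]
    exact hm.2
  · intro m hm
    simp only [Finset.coe_filter, Finset.mem_range, Set.mem_ofPred_eq] at hm
    have h1 := hm.2.lt hs'
    rw [List.length_reverse, List.length_reverse] at h1
    show w.length - s.length - (w.length - s.length - m) = m
    omega
  · intro m hm
    simp only [Finset.coe_filter, Finset.mem_range, Set.mem_ofPred_eq] at hm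
    have h1 := hm.2.lt hs
    show w.length - s.length - (w.length - s.length - m) = m
    omega

theorem at_pre {s : List ℕ} (hs : s ≠ []) (a : ℕ → ℕ) (N n : ℕ) :
    At s (pre a N) n ↔ n + s.length ≤ N ∧ ∀ i < s.length, some (a (n + i)) = s[i]? := by
  constructor
  · intro h
    have h1 := h.lt hs
    rw [pre_length] at h1
    refine ⟨h1, fun i hi => ?_⟩
    rw [← h i hi]
    unfold pre
    rw [List.getElem?_map, List.getElem?_range (by omega)]
    rfl
  · rintro ⟨h1, h2⟩ i hi
    rw [← h2 i hi]
    unfold pre
    rw [List.getElem?_map, List.getElem?_range (by omega)]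
    rfl

open Classical in
/-- occurrences in a sequence -/
noncomputable def occS (s : List ℕ) (a : ℕ → ℕ) (N : ℕ) : ℕ :=
  ((Finset.range N).filter fun n => ∀ i < s.length, some (a (n + i)) = s[i]?).card

theorem occS_bounds {s : List ℕ} (hs : s ≠ []) (a : ℕ → ℕ) (N : ℕ) :
    occ s (pre a N) ≤ occS s a N ∧ occS s a N ≤ occ s (pre a N) + s.length := by
  classical
  unfold occ occS
  rw [pre_length]
  constructor
  · apply Finset.card_le_card
    intro n hn
    rw [Finset.mem_filter, at_pre hs] at hn
    rw [Finset.mem_filter]
    exact ⟨hn.1, hn.2.2⟩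
  · calc _ ≤ (((Finset.range N).filter (At s (pre a N))) ∪ Finset.Ico (N - s.length) N).card := by
          apply Finset.card_le_card
          intro n hn
          rw [Finset.mem_filter] at hn
          rw [Finset.mem_union]
          have h3 := Finset.mem_range.1 hn.1
          by_cases h : n + s.length ≤ N
          · left
            rw [Finset.mem_filter, at_pre hs]
            exact ⟨hn.1, h, hn.2⟩
          · right
            rw [Finset.mem_Ico]
            omega
      _ ≤ _ + (Finset.Ico (N - s.length) N).card := Finset.card_union_le _ _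
      _ ≤ _ := by
          rw [Nat.card_Ico]
          omega

end Pool.Agent.X886.CFN
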